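import Pool.Agent.Lib.MP_d26497_an.Toeplitz

section

open MeasureTheory Complex Metric Set Filter Topology

namespace Pool.Agent.Lib.MP_d26497_an

set_option linter.unusedSectionVars false

section Abstract

variable {E : Type*} [NormedAddCommGroup E] [InnerProductSpace ℂ E] [CompleteSpace E]

lemma abs_mem {ι : Type*} {e : ι → E} (hext : ∀ x, (∀ i, inner ℂ (e i) x = 0) → x = 0)
    {V : Submodule ℂ E} (hV : IsClosed (V : Set E)) (h : ∀ i, e i ∈ V) (x : E) : x ∈ V := by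
  have hc : CompleteSpace V := hV.completeSpace_coe
  have hbot : Vᗮ = ⊥ := by
    rw [Submodule.eq_bot_iff]
    intro y hy
    apply hext
    intro i
    exact (Submodule.mem_orthogonal V y).mp hy _ (h i)
  have : V = ⊤ := by
    rw [← Submodule.orthogonal_orthogonal V, hbot, Submodule.bot_orthogonal_eq_top]
  rw [this]; exact Submodule.mem_top

/-- the diagonal resolvent -/
lemma diag_resolvent {ι : Type*} {e : ι → E} (he0 : ∀ i, e i ≠ 0)
    (horth : ∀ i j, i ≠ j → inner ℂ (e i) (e j) = 0)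
    (hext : ∀ x, (∀ i, inner ℂ (e i) x = 0) → x = 0)
    {T : E →ₗ.[ℂ] E} (hcl : T.IsClosable) {Λ : ι → ℝ} (hpos : ∀ i, 0 < Λ i)
    (hsum : Summable (fun i => (Λ i)⁻¹)) (hmem : ∀ i, (e i, (Λ i : ℂ) • e i) ∈ T.graph)
    (hrel : ∀ x y, (x, y) ∈ T.graph.topologicalClosure → ∀ i,
      inner ℂ (e i) y = (Λ i : ℂ) * inner ℂ (e i) x) :
    HasCompactResolvent T.closure := by
  classical
  have hn0 : ∀ i, 0 < ‖e i‖ := fun i => norm_pos_iff.mpr (he0 i)
  set r : ι → E := fun i => (((Λ i * ‖e i‖ ^ 2)⁻¹ : ℝ) : ℂ) • e i with hr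
  have hsumm : Summable (fun i => ((innerSL ℂ (e i)).smulRight (r i) : E →L[ℂ] E)) := by
    apply Summable.of_norm_bounded hsum
    intro i
    have h3 := hpos i
    have h2 := hn0 i
    rw [ContinuousLinearMap.norm_smulRight_apply, innerSL_apply_norm, hr, norm_smul,
      Complex.norm_real, Real.norm_of_nonneg (by positivity)]
    apply le_of_eq
    field_simp
  set R : E →L[ℂ] E := ∑' i, (innerSL ℂ (e i)).smulRight (r i) with hR
  have hRcomp : IsCompactOperator R := compact_tsum _ _ hsumm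
  have hRx : ∀ x : E, HasSum (fun i => (inner ℂ (e i) x : ℂ) • r i) (R x) := fun x =>
    hsumm.hasSum.mapL (ContinuousLinearMap.apply ℂ E x)
  have hRin : ∀ (x : E) (j : ι), inner ℂ (e j) (R x) = ((Λ j)⁻¹ : ℝ) * inner ℂ (e j) x := by
    intro x j
    have h1 := (hRx x).mapL (innerSL ℂ (e j))
    have h2 := hasSum_ite_eq j ((((Λ j)⁻¹ : ℝ) : ℂ) * inner ℂ (e j) x)
    have h3 : (fun i => (innerSL ℂ (e j)) ((inner ℂ (e i) x : ℂ) • r i)) =
        fun i => if i = j then (((Λ j)⁻¹ : ℝ) : ℂ) * inner ℂ (e j) x else 0 := by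
      funext i
      rw [innerSL_apply_apply, inner_smul_right, hr]
      simp only
      rw [inner_smul_right]
      by_cases h : i = j
      · subst h
        rw [if_pos rfl, inner_self_eq_norm_sq_to_K]
        have h3 : ((Λ i : ℝ) : ℂ) ≠ 0 := by exact_mod_cast (hpos i).ne'
        have h4 : ((‖e i‖ : ℝ) : ℂ) ≠ 0 := by exact_mod_cast (hn0 i).ne'
        push_cast
        field_simp
        rfl
      · rw [if_neg h, horth j i (Ne.symm h), mul_zero, mul_zero]
    rw [h3] at h1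
    exact h1.unique h2
  have hRe : ∀ j, R (e j) = (((Λ j)⁻¹ : ℝ) : ℂ) • e j := by
    intro j
    rw [← sub_eq_zero]
    apply hext
    intro i
    rw [inner_sub_right, hRin, inner_smul_right]
    by_cases h : i = j
    · rw [h, sub_self]
    · rw [horth i j h, mul_zero, mul_zero, sub_self]
  have hgraph : ∀ y : E, (R y, y) ∈ T.graph.topologicalClosure := by
    intro y
    let J : E →L[ℂ] E × E := R.prod (ContinuousLinearMap.id ℂ E)
    have hV : y ∈ (T.graph.topologicalClosure).comap (J : E →ₗ[ℂ] E × E) := by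
      apply abs_mem hext
      · exact T.graph.isClosed_topologicalClosure.preimage J.continuous
      · intro i
        show (R (e i), e i) ∈ T.graph.topologicalClosure
        apply Submodule.le_topologicalClosure
        have h1 := T.graph.smul_mem ((((Λ i)⁻¹ : ℝ) : ℂ)) (hmem i)
        rw [Prod.smul_mk, smul_smul, ← Complex.ofReal_mul, inv_mul_cancel₀ (hpos i).ne',
          Complex.ofReal_one, one_smul] at h1
        rw [hRe]
        exact h1
    exact hV
  rw [hcl.graph_closure_eq_closure_graph] at hgraph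
  refine ⟨0, -R, ⟨?_, ?_⟩, hRcomp.neg⟩
  · intro y
    obtain ⟨f, hf1, hf2⟩ := (LinearPMap.mem_graph_iff _).mp (hgraph y)
    simp only at hf1 hf2
    have hfy : ((-f : T.closure.domain) : E) = (-R) y := by
      rw [neg_apply, ← hf1]; rfl
    refine ⟨hfy ▸ (-f).2, ?_⟩
    have : (⟨(-R) y, hfy ▸ (-f).2⟩ : T.closure.domain) = -f := Subtype.ext hfy.symm
    rw [this, LinearPMap.map_neg, hf2, zero_smul, zero_sub, neg_neg]
  · intro x
    rw [zero_smul, zero_sub, map_neg, neg_apply, neg_neg, ← sub_eq_zero]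
    apply hext
    intro j
    have h1 : ((x : E), T.closure x) ∈ T.graph.topologicalClosure := by
      rw [hcl.graph_closure_eq_closure_graph]
      exact LinearPMap.mem_graph _ x
    rw [inner_sub_right, hRin, hrel _ _ h1, ← mul_assoc,
      ← Complex.ofReal_mul, inv_mul_cancel₀ (hpos j).ne', Complex.ofReal_one, one_mul, sub_self]

/-- infinitely many orthonormal kernel vectors prevent a compact resolvent -/
lemma not_compact_of_kernel {A : E →ₗ.[ℂ] E} {e : ℕ → E} (he0 : ∀ i, e i ≠ 0)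
    (horth : ∀ i j, i ≠ j → inner ℂ (e i) (e j) = 0)
    (hker : ∀ i, (e i, (0 : E)) ∈ A.graph) : ¬ HasCompactResolvent A := by
  rintro ⟨z, R, ⟨-, hR⟩, hcomp⟩
  have hRe : ∀ i, z • R (e i) = e i := by
    intro i
    obtain ⟨f, hf1, hf2⟩ := (LinearPMap.mem_graph_iff _).mp (hker i)
    simp only at hf1 hf2
    have := hR f
    rw [hf2, sub_zero, hf1, map_smul] at this
    exact this
  set u : ℕ → E := fun i => ((‖e i‖⁻¹ : ℝ) : ℂ) • e i with hu
  have hn0 : ∀ i, 0 < ‖e i‖ := fun i => norm_pos_iff.mpr (he0 i)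
  have hu1 : ∀ i, ‖u i‖ = 1 := by
    intro i
    rw [hu, norm_smul, Complex.norm_real, norm_inv, norm_norm, inv_mul_cancel₀ (hn0 i).ne']
  have hRu : ∀ i, z • R (u i) = u i := by
    intro i
    rw [hu, map_smul, smul_comm, hRe]
  have hdist : ∀ i j, i ≠ j → 1 ≤ ‖u i - u j‖ := by
    intro i j hij
    have h1 : ‖u i - u j‖ * ‖u i - u j‖ = ‖u i‖ * ‖u i‖ + ‖u j‖ * ‖u j‖ := by
      have h2 := norm_add_sq_eq_norm_sq_add_norm_sq_of_inner_eq_zero (𝕜 := ℂ) (u i) (-u j) (by
        rw [inner_neg_right, hu]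
        simp only
        rw [inner_smul_left, inner_smul_right, horth i j hij, mul_zero, mul_zero, neg_zero])
      rwa [norm_neg, ← sub_eq_add_neg] at h2
    nlinarith [norm_nonneg (u i - u j), hu1 i, hu1 j]
  have hK := hcomp.isCompact_closure_image_closedBall (1:ℝ)
  obtain ⟨a, -, φ, hφ, hlim⟩ := hK.tendsto_subseq (x := fun i => R (u i)) (fun i =>
    subset_closure ⟨u i, by simp [hu1 i], rfl⟩)
  have hlim2 : Tendsto (fun i => u (φ i)) atTop (𝓝 (z • a)) := by
    have := hlim.const_smul z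
    simpa only [Function.comp_def, hRu] using this
  have hcau := hlim2.cauchySeq
  rw [Metric.cauchySeq_iff'] at hcau
  obtain ⟨N, hN⟩ := hcau (1/2) (by norm_num)
  have h1 := hN (N + 1) (Nat.le_succ N)
  rw [dist_eq_norm] at h1
  have h2 := hdist (φ (N + 1)) (φ N) (fun h => by
    have := hφ.injective h; omega)
  linarith

end Abstract

end Pool.Agent.Lib.MP_d26497_an
end

section

open MeasureTheory Complex Metric Set Filter Topology

namespace Pool.Agent.Lib.MP_d26497_an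

variable {n : ℕ}

/-- `∏ |z_k|^{2 a_k}` -/
noncomputable def Pm (a : Fin n → ℕ) : MvPolynomial (Fin n ⊕ Fin n) ℂ :=
  ∏ k, (MvPolynomial.X (Sum.inl k) * MvPolynomial.X (Sum.inr k)) ^ a k

lemma symb_Pm (a : Fin n → ℕ) (z : Fin n → ℂ) : symb (Pm a) z = mon a z * cmon a z := by
  unfold symb Pm mon cmon
  rw [map_prod, ← Finset.prod_mul_distrib]
  refine Finset.prod_congr rfl fun k _ => ?_
  simp [mul_pow]

lemma Pm_homogeneous (a : Fin n → ℕ) : (Pm a).IsHomogeneous (2 * ∑ k, a k) := by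
  unfold Pm
  rw [Finset.mul_sum]
  apply MvPolynomial.IsHomogeneous.prod
  intro k _
  have := ((MvPolynomial.isHomogeneous_X ℂ (Sum.inl k : Fin n ⊕ Fin n)).mul
    (MvPolynomial.isHomogeneous_X ℂ (Sum.inr k : Fin n ⊕ Fin n))).pow (a k)
  exact this

lemma symb_add (p q : MvPolynomial (Fin n ⊕ Fin n) ℂ) (z : Fin n → ℂ) :
    symb (p + q) z = symb p z + symb q z := by
  unfold symb; rw [map_add]

lemma symb_C_mul (c : ℂ) (p : MvPolynomial (Fin n ⊕ Fin n) ℂ) (z : Fin n → ℂ) :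
    symb (MvPolynomial.C c * p) z = c * symb p z := by
  unfold symb; simp

/-- eigenvalues -/
noncomputable def eig (a β : Fin n → ℕ) : ℝ := ∏ k, ((β k + 1).ascFactorial (a k) : ℝ)

lemma mom_shift (a b : ℕ) : mom (a + b) (a + b) = ((b + 1).ascFactorial a : ℝ) * mom b b := by
  rw [mom_eq, mom_eq, add_comm a b, ← Nat.factorial_mul_ascFactorial]
  push_cast
  ring

lemma prod_mom (a β γ : Fin n → ℕ) :
    ∏ k, mom ((a + β) k) ((a + γ) k) = (eig a β : ℂ) * ∏ k, mom (β k) (γ k) := by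
  unfold eig
  by_cases h : β = γ
  · subst h
    push_cast
    rw [← Finset.prod_mul_distrib]
    refine Finset.prod_congr rfl fun k _ => ?_
    simp only [Pi.add_apply]
    rw [mom_shift]
    push_cast; ring
  · obtain ⟨k, hk⟩ := Function.ne_iff.mp h
    have h1 : ∏ k, mom (β k) (γ k) = 0 :=
      Finset.prod_eq_zero (Finset.mem_univ k) (mom_ne hk)
    have h2 : ∏ k, mom ((a + β) k) ((a + γ) k) = 0 :=
      Finset.prod_eq_zero (Finset.mem_univ k) (mom_ne (by simpa using hk))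
    rw [h1, h2, mul_zero]

/-- the real symbol `c |z^a|² + d |z^b|²` -/
noncomputable def dsym (c d : ℝ) (a b : Fin n → ℕ) (z : Fin n → ℂ) : ℂ :=
  c * (mon a z * cmon a z) + d * (mon b z * cmon b z)

lemma conj_dsym (c d : ℝ) (a b : Fin n → ℕ) (z : Fin n → ℂ) :
    (starRingEnd ℂ) (dsym c d a b z) = dsym c d a b z := by
  unfold dsym
  simp only [map_add, map_mul, Complex.conj_ofReal, conj_mon, conj_cmon]
  ring

lemma dsym_mul_mon (c d : ℝ) (a b β : Fin n → ℕ) (z : Fin n → ℂ) :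
    (starRingEnd ℂ) (dsym c d a b z) * mon β z =
      c * (mon (a + β) z * cmon a z) + d * (mon (b + β) z * cmon b z) := by
  rw [conj_dsym, ← mon_mul, ← mon_mul]
  unfold dsym
  ring

lemma memLp_dsym (c d : ℝ) (a b β : Fin n → ℕ) :
    MemLp (fun z => (starRingEnd ℂ) (dsym c d a b z) * mon β z) 2 (mu n) := by
  simp only [dsym_mul_mon]
  exact ((memLp_mon_cmon (a + β) a).const_mul _).add ((memLp_mon_cmon (b + β) b).const_mul _)

lemma inner_smulF (x y : Fock n) (c : ℂ) : inner ℂ x (c • y) = c * inner ℂ x y :=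
  inner_smul_right x y c

lemma proj_dsym (c d : ℝ) (a b β : Fin n → ℕ) :
    proj _ (memLp_dsym c d a b β) = ((c * eig a β + d * eig b β : ℝ) : ℂ) • monL β := by
  apply ext_monL
  intro γ
  rw [inner_proj_monL, inner_smulF, inner_monL_monL]
  have h1 : ∀ z : Fin n → ℂ, (starRingEnd ℂ) (dsym c d a b z) * mon β z * cmon γ z =
      c * (mon (a + β) z * cmon (a + γ) z) + d * (mon (b + β) z * cmon (b + γ) z) := by
    intro z
    rw [dsym_mul_mon, ← cmon_mul, ← cmon_mul]; ring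
  have hi : ∀ a : Fin n → ℕ, Integrable (fun z => mon (a + β) z * cmon (a + γ) z) (mu n) :=
    fun a => (memLp_mon _).integrable_mul (memLp_cmon _)
  simp only [h1]
  rw [integral_add ((hi a).const_mul _) ((hi b).const_mul _), integral_const_mul,
    integral_const_mul, moment, moment, prod_mom, prod_mom]
  push_cast
  ring


lemma mulF_monL (φ : (Fin n → ℂ) → ℂ) (β : Fin n → ℕ) :
    mulF φ (monL β) =ᵐ[mu n] fun z => φ z * mon β z := by
  filter_upwards [monL_ae β] with z hz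
  rw [mulF, hz]

lemma monL_mem_dsym (c d : ℝ) (a b β : Fin n → ℕ) :
    monL β ∈ (toeplitz (dsym c d a b)).domain := by
  show MemLp (mulF (dsym c d a b) (monL β)) 2 (mu n)
  refine (memLp_congr_ae (mulF_monL _ β)).mpr ?_
  have := memLp_dsym c d a b β
  simpa only [conj_dsym] using this

lemma toeplitz_dsym (c d : ℝ) (a b β : Fin n → ℕ) :
    toeplitz (dsym c d a b) ⟨monL β, monL_mem_dsym c d a b β⟩ =
      ((c * eig a β + d * eig b β : ℝ) : ℂ) • monL β := by
  rw [← proj_dsym]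
  show proj (mulF (dsym c d a b) (monL β)) _ = _
  apply proj_congr
  refine (mulF_monL _ β).trans (Eventually.of_forall fun z => ?_)
  simp only [conj_dsym]

lemma inner_monL_ne {β γ : Fin n → ℕ} (h : β ≠ γ) : inner ℂ (monL β) (monL γ) = 0 := by
  rw [inner_monL_monL]
  obtain ⟨k, hk⟩ := Function.ne_iff.mp h
  exact Finset.prod_eq_zero (Finset.mem_univ k) (mom_ne hk.symm)



lemma monL_ne_zero (β : Fin n → ℕ) : (monL β : Fock n) ≠ 0 := by
  intro h
  have := monL_inner_self_pos β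
  rw [h, norm_zero] at this
  norm_num at this

lemma ext_zero (x : Fock n) (h : ∀ β, inner ℂ (monL β) x = 0) : x = 0 := by
  apply ext_monL
  intro β
  rw [h, inner_zero_right]

lemma graph_dsym (c d : ℝ) (a b β : Fin n → ℕ) :
    (monL β, ((c * eig a β + d * eig b β : ℝ) : ℂ) • monL β) ∈ (toeplitz (dsym c d a b)).graph := by
  rw [LinearPMap.mem_graph_iff]
  exact ⟨⟨monL β, monL_mem_dsym c d a b β⟩, rfl, toeplitz_dsym c d a b β⟩

lemma inner_smulF_left (x y : Fock n) (c : ℝ) : inner ℂ ((c : ℂ) • x) y = (c : ℂ) * inner ℂ x y := by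
  have := @inner_smul_left ℂ (Fock n) _ _ _ x y (c : ℂ)
  rw [Complex.conj_ofReal] at this
  exact this

lemma dsym_compact (c d : ℝ) (a b : Fin n → ℕ) (hpos : ∀ β, 0 < c * eig a β + d * eig b β)
    (hsum : Summable (fun β : Fin n → ℕ => (c * eig a β + d * eig b β)⁻¹)) :
    HasCompactResolvent (toeplitz (dsym c d a b)).closure := by
  refine diag_resolvent (e := monL) monL_ne_zero (fun i j h => inner_monL_ne h) ext_zero
    (isClosable (memLp_dsym c d a b)) hpos hsum (graph_dsym c d a b) ?_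
  intro x y hxy β
  rw [inner_closure (memLp_dsym c d a b β) hxy, proj_dsym, inner_smulF_left]

/-- `∑_β ∏_k 1/((β_k+1)(β_k+2))` converges. -/
lemma summable_eig : Summable (fun β : Fin n → ℕ => (eig (fun _ => 2) β)⁻¹) := by
  have hterm : ∀ β : Fin n → ℕ, (eig (fun _ => 2) β)⁻¹ =
      ∏ k, (((β k + 1) * (β k + 2) : ℝ))⁻¹ := by
    intro β
    unfold eig
    rw [← Finset.prod_inv_distrib]
    refine Finset.prod_congr rfl fun k _ => ?_
    congr 1
    simp [Nat.ascFactorial_succ, Nat.ascFactorial_zero]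
    ring
  have hnn : ∀ j : ℕ, (0:ℝ) ≤ (((j + 1) * (j + 2) : ℝ))⁻¹ := fun j => by positivity
  have hpart : ∀ M : ℕ, ∑ j ∈ Finset.range M, (((j + 1) * (j + 2) : ℝ))⁻¹ ≤ 1 := by
    intro M
    have : ∑ j ∈ Finset.range M, (((j + 1) * (j + 2) : ℝ))⁻¹ = 1 - ((M : ℝ) + 1)⁻¹ := by
      induction M with
      | zero => simp
      | succ M ih =>
        rw [Finset.sum_range_succ, ih]
        push_cast
        field_simp
        ring
    rw [this]
    have : (0:ℝ) ≤ ((M:ℝ) + 1)⁻¹ := by positivity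
    linarith
  simp only [hterm]
  apply summable_of_sum_le (c := 1)
  · intro β; exact Finset.prod_nonneg fun k _ => hnn _
  · intro F
    -- enclose in a box
    obtain ⟨M, hM⟩ : ∃ M : ℕ, ∀ β ∈ F, ∀ k, β k < M := by
      refine ⟨(F.sup fun β => Finset.univ.sup β) + 1, fun β hβ k => ?_⟩
      exact Nat.lt_succ_of_le ((Finset.le_sup (f := β) (Finset.mem_univ k)).trans
        (Finset.le_sup (f := fun β : Fin n → ℕ => Finset.univ.sup β) hβ))
    have hsub : F ⊆ Fintype.piFinset (fun _ : Fin n => Finset.range M) := by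
      intro β hβ
      rw [Fintype.mem_piFinset]
      intro k
      exact Finset.mem_range.mpr (hM β hβ k)
    calc ∑ β ∈ F, ∏ k, (((β k + 1) * (β k + 2) : ℝ))⁻¹
        ≤ ∑ β ∈ Fintype.piFinset (fun _ : Fin n => Finset.range M),
          ∏ k, (((β k + 1) * (β k + 2) : ℝ))⁻¹ :=
          Finset.sum_le_sum_of_subset_of_nonneg hsub
            (fun β _ _ => Finset.prod_nonneg fun k _ => hnn _)
      _ = ∏ _k : Fin n, ∑ j ∈ Finset.range M, (((j + 1) * (j + 2) : ℝ))⁻¹ := by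
          rw [Finset.prod_univ_sum]
      _ ≤ ∏ _k : Fin n, (1:ℝ) := by
          apply Finset.prod_le_prod
          · intro k _; exact Finset.sum_nonneg fun j _ => hnn j
          · intro k _; exact hpart M
      _ = 1 := by simp

end Pool.Agent.Lib.MP_d26497_an
end

section

open MeasureTheory Complex Metric Set Filter Topology

namespace Pool.Agent.Lib.MP_d26497_an

set_option linter.unusedSectionVars false

section Abstract1

variable {E : Type*} [NormedAddCommGroup E] [InnerProductSpace ℂ E] [CompleteSpace E]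

lemma norm_sq_sum_orth {e : ℕ → E} (he : Orthonormal ℂ e) (t : Finset ℕ) (l : ℕ → ℂ) :
    ‖∑ k ∈ t, l k • e k‖ ^ 2 = ∑ k ∈ t, ‖l k‖ ^ 2 := by
  have h1 := he.inner_sum l l t
  rw [inner_self_eq_norm_sq_to_K] at h1
  have h2 : ((‖∑ k ∈ t, l k • e k‖ ^ 2 : ℝ) : ℂ) = ((∑ k ∈ t, ‖l k‖ ^ 2 : ℝ) : ℂ) := by
    push_cast
    refine h1.trans (Finset.sum_congr rfl fun k _ => ?_)
    rw [← Complex.conj_mul']
  exact_mod_cast h2

/-- Hilbert-Schmidt type sums are summable in operator norm. -/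
lemma hs_summable {e ρ : ℕ → E} (he : Orthonormal ℂ e) (hρ : Summable (fun k => ‖ρ k‖ ^ 2)) :
    Summable (fun k => ((innerSL ℂ (ρ k)).smulRight (e k) : E →L[ℂ] E)) := by
  rw [summable_iff_vanishing_norm]
  intro ε hε
  rw [summable_iff_vanishing_norm] at hρ
  obtain ⟨s, hs⟩ := hρ ((ε / 2) ^ 2) (by positivity)
  refine ⟨s, fun t ht => ?_⟩
  have h1 := hs t ht
  rw [Real.norm_of_nonneg (Finset.sum_nonneg fun k _ => by positivity)] at h1
  refine lt_of_le_of_lt (ContinuousLinearMap.opNorm_le_bound _ (by positivity : 0 ≤ ε / 2) ?_)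
    (by linarith)
  intro y
  have h2 : ‖(∑ k ∈ t, ((innerSL ℂ (ρ k)).smulRight (e k) : E →L[ℂ] E)) y‖ ^ 2 ≤
      (ε / 2 * ‖y‖) ^ 2 := by
    rw [sum_apply]
    simp only [ContinuousLinearMap.smulRight_apply, innerSL_apply_apply]
    have h3 : ‖∑ k ∈ t, (inner ℂ (ρ k) y : ℂ) • e k‖ ^ 2 = ∑ k ∈ t, ‖(inner ℂ (ρ k) y : ℂ)‖ ^ 2 :=
      norm_sq_sum_orth he _ _
    rw [h3]
    calc ∑ k ∈ t, ‖(inner ℂ (ρ k) y : ℂ)‖ ^ 2 ≤ ∑ k ∈ t, ‖ρ k‖ ^ 2 * ‖y‖ ^ 2 := by
          refine Finset.sum_le_sum fun k _ => ?_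
          rw [← mul_pow]
          exact pow_le_pow_left₀ (norm_nonneg _) (norm_inner_le_norm _ _) 2
      _ = (∑ k ∈ t, ‖ρ k‖ ^ 2) * ‖y‖ ^ 2 := by rw [Finset.sum_mul]
      _ ≤ (ε / 2) ^ 2 * ‖y‖ ^ 2 := mul_le_mul_of_nonneg_right h1.le (by positivity)
      _ = (ε / 2 * ‖y‖) ^ 2 := by ring
  exact (pow_le_pow_iff_left₀ (norm_nonneg _) (by positivity) two_ne_zero).mp h2


/-- weights of the shift part -/
structure IsWeight (w : ℕ → ℝ) : Prop where
  pos : ∀ k, 0 < w k
  sq : ∀ k, w k ^ 2 = ((k : ℝ) + 1) * (k + 2) * (k + 3) * (k + 4)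

noncomputable def lam (k : ℕ) : ℝ := ((k : ℝ) + 1) * (k + 2)

lemma lam_pos (k : ℕ) : 0 < lam k := by unfold lam; positivity

/-- rows of the inverse -/
noncomputable def row (e : ℕ → E) (w : ℕ → ℝ) : ℕ → E
  | 0 => (((lam 0)⁻¹ : ℝ) : ℂ) • e 0
  | 1 => (((lam 1)⁻¹ : ℝ) : ℂ) • e 1
  | 2 => (((lam 2)⁻¹ : ℝ) : ℂ) • e 2
  | 3 => (((lam 3)⁻¹ : ℝ) : ℂ) • e 3
  | (k + 4) => (((lam (k + 4))⁻¹ : ℝ) : ℂ) • (e (k + 4) - (w k : ℂ) • row e w k)

lemma row_lt (e : ℕ → E) (w : ℕ → ℝ) {k : ℕ} (hk : k < 4) :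
    row e w k = (((lam k)⁻¹ : ℝ) : ℂ) • e k := by
  interval_cases k <;> rfl

lemma row_succ (e : ℕ → E) (w : ℕ → ℝ) (k : ℕ) :
    row e w (k + 4) = (((lam (k + 4))⁻¹ : ℝ) : ℂ) • (e (k + 4) - (w k : ℂ) • row e w k) := rfl

lemma inner_row_gt {e : ℕ → E} (he : Orthonormal ℂ e) (w : ℕ → ℝ) (k : ℕ) :
    ∀ j, k < j → inner ℂ (e j) (row e w k) = 0 := by
  induction k using Nat.strong_induction_on with
  | _ k ih =>
    intro j hj
    rcases lt_or_ge k 4 with hk | hk
    · rw [row_lt e w hk, inner_smul_right, he.2 (by omega), mul_zero]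
    · obtain ⟨m, rfl⟩ : ∃ m, k = m + 4 := ⟨k - 4, by omega⟩
      rw [row_succ, inner_smul_right, inner_sub_right, inner_smul_right, he.2 (by omega),
        ih m (by omega) j (by omega), mul_zero, sub_zero, mul_zero]

lemma norm_row {e : ℕ → E} (he : Orthonormal ℂ e) {w : ℕ → ℝ} (hw : IsWeight w) (k : ℕ) :
    ‖row e w k‖ ^ 2 ≤ ((k : ℝ) + 1)⁻¹ ^ 2 := by
  induction k using Nat.strong_induction_on with
  | _ k ih =>
    rcases lt_or_ge k 4 with hk | hk
    · rw [row_lt e w hk, norm_smul, he.1, mul_one, Complex.norm_real,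
        Real.norm_of_nonneg (inv_nonneg.mpr (lam_pos k).le)]
      apply pow_le_pow_left₀ (inv_nonneg.mpr (lam_pos k).le)
      apply inv_anti₀ (by positivity)
      unfold lam
      nlinarith [(Nat.cast_nonneg k : (0:ℝ) ≤ k)]
    · obtain ⟨m, rfl⟩ : ∃ m, k = m + 4 := ⟨k - 4, by omega⟩
      have hm := ih m (by omega)
      rw [row_succ, norm_smul, mul_pow, Complex.norm_real,
        Real.norm_of_nonneg (inv_nonneg.mpr (lam_pos _).le)]
      have h1 : ‖e (m + 4) - (w m : ℂ) • row e w m‖ ^ 2 = 1 + w m ^ 2 * ‖row e w m‖ ^ 2 := by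
        have h2 := norm_add_sq_eq_norm_sq_add_norm_sq_of_inner_eq_zero (𝕜 := ℂ) (e (m + 4))
          (-((w m : ℂ) • row e w m)) (by
            rw [inner_neg_right, inner_smul_right, inner_row_gt he w m _ (by omega), mul_zero,
              neg_zero])
        rw [norm_neg, ← sub_eq_add_neg, he.1, norm_smul, Complex.norm_real,
          Real.norm_of_nonneg (hw.pos m).le] at h2
        nlinarith [h2]
      rw [h1, hw.sq]
      have hm1 : (0:ℝ) < (m:ℝ) + 1 := by positivity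
      have h3 : 1 + ((m : ℝ) + 1) * (m + 2) * (m + 3) * (m + 4) * ‖row e w m‖ ^ 2 ≤
          1 + ((m : ℝ) + 1) * (m + 2) * (m + 3) * (m + 4) * ((m : ℝ) + 1)⁻¹ ^ 2 := by
        gcongr
      refine (mul_le_mul_of_nonneg_left h3 (by positivity)).trans ?_
      unfold lam
      push_cast
      rw [inv_pow, inv_pow, inv_pow, ← div_eq_inv_mul, div_le_iff₀ (by positivity)]
      have h4 : ((m:ℝ) + 4 + 1) ^ 2 ≠ 0 := by positivity
      have h5 : (((m:ℝ) + 4 + 1) ^ 2)⁻¹ * (((m:ℝ) + 4 + 1) * ((m:ℝ) + 4 + 2)) ^ 2 =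
          ((m:ℝ) + 6) ^ 2 := by
        field_simp; ring
      rw [h5]
      have h6 : ((m : ℝ) + 1) * (m + 2) * (m + 3) * (m + 4) * (((m : ℝ) + 1) ^ 2)⁻¹ =
          ((m + 2) * (m + 3) * (m + 4)) / ((m : ℝ) + 1) := by
        field_simp
      rw [h6, ← le_sub_iff_add_le', div_le_iff₀ hm1]
      nlinarith [(Nat.cast_nonneg m : (0:ℝ) ≤ m), sq_nonneg (m:ℝ), mul_nonneg (Nat.cast_nonneg m : (0:ℝ) ≤ m) (sq_nonneg (m:ℝ))]


lemma summable_inv_sq : Summable (fun k : ℕ => ((k : ℝ) + 1)⁻¹ ^ 2) := by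
  have h1 := (summable_nat_add_iff 1).mpr (Real.summable_nat_pow_inv.mpr (one_lt_two))
  refine h1.congr fun k => ?_
  push_cast
  rw [inv_pow]

/-- density of the range -/
lemma range_dense {e : ℕ → E} (he : Orthonormal ℂ e)
    (hext : ∀ x, (∀ i, inner ℂ (e i) x = 0) → x = 0) {w : ℕ → ℝ} (hw : IsWeight w) (g : E)
    (hg : ∀ k, inner ℂ ((lam k : ℂ) • e k + (w k : ℂ) • e (k + 4)) g = 0) : g = 0 := by
  apply hext
  intro k₀
  by_contra hne
  set h : ℕ → ℝ := fun k => ‖(inner ℂ (e k) g : ℂ)‖ ^ 2 with hh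
  have hsum : Summable h := he.inner_products_summable g
  -- the recursion
  have hrec : ∀ k, h k * (((k : ℝ) + 1) * (k + 2)) = h (k + 4) * (((k : ℝ) + 3) * (k + 4)) := by
    intro k
    have h1 := hg k
    rw [inner_add_left, inner_smul_left, inner_smul_left, Complex.conj_ofReal,
      Complex.conj_ofReal] at h1
    have h2 : (lam k : ℂ) * inner ℂ (e k) g = -((w k : ℂ) * inner ℂ (e (k + 4)) g) :=
      eq_neg_of_add_eq_zero_left h1
    have h3 := congrArg (fun z : ℂ => ‖z‖ ^ 2) h2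
    simp only [norm_neg, norm_mul, mul_pow, Complex.norm_real, Real.norm_eq_abs, sq_abs] at h3
    rw [hw.sq, lam] at h3
    have hp : (0:ℝ) < ((k : ℝ) + 1) * (k + 2) := by positivity
    apply mul_left_cancel₀ hp.ne'
    simp only [hh]
    nlinarith [h3]
  have hpos : 0 < h k₀ := by
    simp only [hh]
    have : 0 < ‖(inner ℂ (e k₀) g : ℂ)‖ := norm_pos_iff.mpr hne
    positivity
  have hmono : ∀ j : ℕ, h k₀ * ((k₀ : ℝ) + 1 / 2) ≤ h (k₀ + 4 * j) * (((k₀ + 4 * j : ℕ) : ℝ) + 1 / 2) := by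
    intro j
    induction j with
    | zero => simp
    | succ j ih =>
      refine ih.trans ?_
      set k := k₀ + 4 * j with hk
      have hk' : k₀ + 4 * (j + 1) = k + 4 := by omega
      rw [hk']
      have h1 := hrec k
      have h0 : 0 ≤ h (k + 4) := by simp only [hh]; positivity
      have hp : (0:ℝ) < ((k : ℝ) + 1) * (k + 2) := by positivity
      have h2 : h k = h (k + 4) * (((k : ℝ) + 3) * (k + 4)) / (((k : ℝ) + 1) * (k + 2)) := by
        rw [eq_div_iff hp.ne']; exact h1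
      rw [h2, div_mul_eq_mul_div, div_le_iff₀ hp]
      push_cast
      have h3 : (((k : ℝ) + 3) * (k + 4)) * ((k : ℝ) + 1 / 2) ≤
          ((k : ℝ) + 4 + 1 / 2) * (((k : ℝ) + 1) * (k + 2)) := by
        nlinarith [(Nat.cast_nonneg k : (0:ℝ) ≤ k)]
      calc h (k + 4) * (((k : ℝ) + 3) * (k + 4)) * ((k : ℝ) + 1 / 2)
          = h (k + 4) * ((((k : ℝ) + 3) * (k + 4)) * ((k : ℝ) + 1 / 2)) := by ring
        _ ≤ h (k + 4) * (((k : ℝ) + 4 + 1 / 2) * (((k : ℝ) + 1) * (k + 2))) :=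
            mul_le_mul_of_nonneg_left h3 h0
        _ = h (k + 4) * ((k : ℝ) + 4 + 1 / 2) * (((k : ℝ) + 1) * (k + 2)) := by ring
  set c : ℝ := h k₀ * ((k₀ : ℝ) + 1 / 2) / (k₀ + 5) with hc
  have hcpos : 0 < c := by positivity
  have hlow : ∀ j : ℕ, c * ((j : ℝ) + 1)⁻¹ ≤ h (k₀ + 4 * j) := by
    intro j
    have h1 := hmono j
    have h2 : (0:ℝ) < ((k₀ + 4 * j : ℕ) : ℝ) + 1 / 2 := by positivity
    rw [← div_le_iff₀ h2] at h1
    refine le_trans ?_ h1
    rw [hc, ← div_eq_mul_inv, div_div]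
    apply div_le_div_of_nonneg_left (by positivity) h2
    push_cast
    nlinarith [(Nat.cast_nonneg k₀ : (0:ℝ) ≤ k₀), (Nat.cast_nonneg j : (0:ℝ) ≤ j),
      mul_nonneg (Nat.cast_nonneg k₀ : (0:ℝ) ≤ k₀) (Nat.cast_nonneg j : (0:ℝ) ≤ j)]
  have hinj : Function.Injective (fun j : ℕ => k₀ + 4 * j) := fun a b hab => by
    simp only at hab; omega
  have hs2 : Summable (fun j : ℕ => h (k₀ + 4 * j)) := hsum.comp_injective hinj
  have hs3 : Summable (fun j : ℕ => c * ((j : ℝ) + 1)⁻¹) :=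
    Summable.of_nonneg_of_le (fun j => by positivity) hlow hs2
  rw [summable_mul_left_iff hcpos.ne'] at hs3
  have hs4 : Summable (fun j : ℕ => ((j : ℝ))⁻¹) := by
    rw [← summable_nat_add_iff 1]
    simpa using hs3
  exact Real.not_summable_natCast_inv hs4

/-- compact resolvent for the lower triangular operator -/
lemma tri_resolvent {e : ℕ → E} (he : Orthonormal ℂ e)
    (hext : ∀ x, (∀ i, inner ℂ (e i) x = 0) → x = 0) {w : ℕ → ℝ} (hw : IsWeight w)
    {T : E →ₗ.[ℂ] E} (hcl : T.IsClosable)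
    (hmem : ∀ k, (e k, (lam k : ℂ) • e k + (w k : ℂ) • e (k + 4)) ∈ T.graph)
    (hrel0 : ∀ x y, (x, y) ∈ T.graph.topologicalClosure → ∀ k < 4,
      inner ℂ (e k) y = (lam k : ℂ) * inner ℂ (e k) x)
    (hrel : ∀ x y, (x, y) ∈ T.graph.topologicalClosure → ∀ k,
      inner ℂ (e (k + 4)) y = (lam (k + 4) : ℂ) * inner ℂ (e (k + 4)) x +
        (w k : ℂ) * inner ℂ (e k) x) :
    HasCompactResolvent T.closure := by
  set ρ := row e w with hρ
  have hsρ : Summable (fun k => ‖ρ k‖ ^ 2) :=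
    Summable.of_nonneg_of_le (fun k => by positivity) (norm_row he hw) summable_inv_sq
  have hsumm := hs_summable he hsρ
  set R : E →L[ℂ] E := ∑' k, (innerSL ℂ (ρ k)).smulRight (e k) with hR
  have hRcomp : IsCompactOperator R := compact_tsum _ _ hsumm
  have hRx : ∀ x : E, HasSum (fun k => (inner ℂ (ρ k) x : ℂ) • e k) (R x) := fun x =>
    hsumm.hasSum.mapL (ContinuousLinearMap.apply ℂ E x)
  have hRin : ∀ (x : E) (j : ℕ), inner ℂ (e j) (R x) = inner ℂ (ρ j) x := by
    intro x j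
    have h1 := (hRx x).mapL (innerSL ℂ (e j))
    have h2 := hasSum_ite_eq j (inner ℂ (ρ j) x : ℂ)
    have h3 : (fun i => (innerSL ℂ (e j)) ((inner ℂ (ρ i) x : ℂ) • e i)) =
        fun i => if i = j then (inner ℂ (ρ j) x : ℂ) else 0 := by
      funext i
      rw [innerSL_apply_apply, inner_smul_right, orthonormal_iff_ite.mp he]
      by_cases h : i = j
      · subst h; simp
      · rw [if_neg (Ne.symm h), if_neg h, mul_zero]
    rw [h3] at h1
    exact h1.unique h2
  -- rows solve the recursion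
  have hrow0 : ∀ (y : E) (k : ℕ), k < 4 → inner ℂ (ρ k) y = (lam k : ℂ)⁻¹ * inner ℂ (e k) y := by
    intro y k hk
    rw [hρ, row_lt e w hk, inner_smul_left, Complex.conj_ofReal]
    push_cast; rfl
  have hrow : ∀ (y : E) (k : ℕ), inner ℂ (ρ (k + 4)) y =
      (lam (k + 4) : ℂ)⁻¹ * (inner ℂ (e (k + 4)) y - (w k : ℂ) * inner ℂ (ρ k) y) := by
    intro y k
    rw [hρ, row_succ, inner_smul_left, inner_sub_left, inner_smul_left, Complex.conj_ofReal,
      Complex.conj_ofReal]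
    push_cast; rfl
  have hl0 : ∀ k, (lam k : ℂ) ≠ 0 := fun k => by exact_mod_cast (lam_pos k).ne'
  -- left inverse on the closure
  have hleft : ∀ x y, (x, y) ∈ T.graph.topologicalClosure → R y = x := by
    intro x y hxy
    have hk : ∀ k, inner ℂ (ρ k) y = inner ℂ (e k) x := by
      intro k
      induction k using Nat.strong_induction_on with
      | _ k ih =>
        rcases lt_or_ge k 4 with hk | hk
        · rw [hrow0 y k hk, hrel0 x y hxy k hk, ← mul_assoc, inv_mul_cancel₀ (hl0 k), one_mul]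
        · obtain ⟨m, rfl⟩ : ∃ m, k = m + 4 := ⟨k - 4, by omega⟩
          rw [hrow, ih m (by omega), hrel x y hxy m, add_sub_cancel_right, ← mul_assoc,
            inv_mul_cancel₀ (hl0 _), one_mul]
    rw [← sub_eq_zero]
    apply hext
    intro j
    rw [inner_sub_right, hRin, hk, sub_self]
  -- right inverse
  have hgraph : ∀ y : E, (R y, y) ∈ T.graph.topologicalClosure := by
    intro y
    let J : E →L[ℂ] E × E := R.prod (ContinuousLinearMap.id ℂ E)
    set V := (T.graph.topologicalClosure).comap (J : E →ₗ[ℂ] E × E) with hV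
    have hVc : IsClosed (V : Set E) := T.graph.isClosed_topologicalClosure.preimage J.continuous
    have hVm : ∀ k, (lam k : ℂ) • e k + (w k : ℂ) • e (k + 4) ∈ V := by
      intro k
      show (R ((lam k : ℂ) • e k + (w k : ℂ) • e (k + 4)),
        (lam k : ℂ) • e k + (w k : ℂ) • e (k + 4)) ∈ T.graph.topologicalClosure
      have h1 := Submodule.le_topologicalClosure _ (hmem k)
      rw [hleft _ _ h1]
      exact h1
    have hc : CompleteSpace V := hVc.completeSpace_coe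
    have hbot : Vᗮ = ⊥ := by
      rw [Submodule.eq_bot_iff]
      intro g hg
      apply range_dense he hext hw
      intro k
      exact (Submodule.mem_orthogonal V g).mp hg _ (hVm k)
    have : V = ⊤ := by
      rw [← Submodule.orthogonal_orthogonal V, hbot, Submodule.bot_orthogonal_eq_top]
    have hyV : y ∈ V := by rw [this]; exact Submodule.mem_top
    exact hyV
  rw [hcl.graph_closure_eq_closure_graph] at hgraph
  refine ⟨0, -R, ⟨?_, ?_⟩, hRcomp.neg⟩
  · intro y
    obtain ⟨f, hf1, hf2⟩ := (LinearPMap.mem_graph_iff _).mp (hgraph y)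
    simp only at hf1 hf2
    have hfy : ((-f : T.closure.domain) : E) = (-R) y := by
      rw [neg_apply, ← hf1]; rfl
    refine ⟨hfy ▸ (-f).2, ?_⟩
    have : (⟨(-R) y, hfy ▸ (-f).2⟩ : T.closure.domain) = -f := Subtype.ext hfy.symm
    rw [this, LinearPMap.map_neg, hf2, zero_smul, zero_sub, neg_neg]
  · intro x
    rw [zero_smul, zero_sub, map_neg, neg_apply, neg_neg]
    apply hleft
    rw [hcl.graph_closure_eq_closure_graph]
    exact LinearPMap.mem_graph _ x

end Abstract1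

end Pool.Agent.Lib.MP_d26497_an
end

section

open MeasureTheory Complex Metric Set Filter Topology

namespace Pool.Agent.Lib.MP_d26497_an

variable {n : ℕ}

lemma symb_psi (b : Fin n → ℕ) : symb (Pm (fun _ : Fin n => 2)) = dsym 1 0 (fun _ => 2) b := by
  ext z
  rw [symb_Pm]
  simp [dsym]

lemma symb_phi (b : Fin n → ℕ) : symb (Pm (fun _ : Fin n => 2) + MvPolynomial.C (-2) * Pm b) =
    dsym 1 (-2) (fun _ => 2) b := by
  ext z
  rw [symb_add, symb_C_mul, symb_Pm, symb_Pm]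
  simp [dsym]

/-- exponents `1` at `k₀`, `2` elsewhere. -/
def bexp (k₀ : Fin n) (k : Fin n) : ℕ := if k = k₀ then 1 else 2

lemma eig_rel (k₀ : Fin n) (β : Fin n → ℕ) (h : β k₀ = 0) :
    eig (fun _ => 2) β = 2 * eig (bexp k₀) β := by
  unfold eig
  rw [← Finset.mul_prod_erase Finset.univ _ (Finset.mem_univ k₀),
    ← Finset.mul_prod_erase Finset.univ _ (Finset.mem_univ k₀), h]
  have h1 : ∏ k ∈ Finset.univ.erase k₀, (((β k + 1).ascFactorial (bexp k₀ k) : ℕ) : ℝ) =
      ∏ k ∈ Finset.univ.erase k₀, (((β k + 1).ascFactorial 2 : ℕ) : ℝ) := by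
    refine Finset.prod_congr rfl fun k hk => ?_
    rw [bexp, if_neg (Finset.ne_of_mem_erase hk)]
  rw [h1, bexp, if_pos rfl]
  norm_num [Nat.ascFactorial_succ, Nat.ascFactorial_zero]

lemma sum_bexp (k₀ : Fin n) : 2 * ∑ k, bexp k₀ k ≤ 2 * ∑ _k : Fin n, 2 - 1 := by
  have : ∑ k, bexp k₀ k < ∑ _k : Fin n, 2 := by
    apply Finset.sum_lt_sum
    · intro k _; unfold bexp; split_ifs <;> omega
    · exact ⟨k₀, Finset.mem_univ _, by simp [bexp]⟩
  omega

theorem ge_two (hn : 2 ≤ n) :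
    ∃ (N : ℕ) (ψ φ₁ : MvPolynomial (Fin n ⊕ Fin n) ℂ),
      1 ≤ N ∧ ψ.IsHomogeneous N ∧ φ₁.totalDegree ≤ N - 1 ∧
      (toeplitz (symb ψ)).IsClosable ∧ (toeplitz (symb (ψ + φ₁))).IsClosable ∧
      HasCompactResolvent (toeplitz (symb ψ)).closure ∧
      ¬ HasCompactResolvent (toeplitz (symb (ψ + φ₁))).closure := by
  set k₀ : Fin n := ⟨0, by omega⟩ with hk₀
  set k₁ : Fin n := ⟨1, by omega⟩ with hk₁
  have hk : k₀ ≠ k₁ := by
    intro h; simp [hk₀, hk₁] at h
  refine ⟨2 * ∑ _k : Fin n, 2, Pm (fun _ => 2), MvPolynomial.C (-2) * Pm (bexp k₀), ?_,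
    Pm_homogeneous _, ?_, ?_, ?_, ?_, ?_⟩
  · simp; omega
  · refine le_trans ?_ (sum_bexp k₀)
    have h1 : (MvPolynomial.C (-2 : ℂ) * Pm (bexp k₀)).IsHomogeneous (0 + 2 * ∑ k, bexp k₀ k) :=
      (MvPolynomial.isHomogeneous_C _ _).mul (Pm_homogeneous _)
    rw [zero_add] at h1
    exact h1.totalDegree_le
  · rw [symb_psi (bexp k₀)]
    exact isClosable (memLp_dsym _ _ _ _)
  · rw [symb_phi (bexp k₀)]
    exact isClosable (memLp_dsym _ _ _ _)
  · rw [symb_psi (bexp k₀)]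
    apply dsym_compact
    · intro β
      have : 0 < eig (fun _ => 2) β := by
        unfold eig
        apply Finset.prod_pos
        intro k _
        exact_mod_cast Nat.ascFactorial_pos _ _
      simpa using this
    · simpa using summable_eig (n := n)
  · rw [symb_phi (bexp k₀)]
    have hcl : (toeplitz (dsym 1 (-2) (fun _ : Fin n => 2) (bexp k₀))).IsClosable :=
      isClosable (memLp_dsym _ _ _ _)
    apply not_compact_of_kernel (e := fun j : ℕ => (monL (fun k => if k = k₁ then j else 0) : Fock n))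
    · intro j; exact monL_ne_zero _
    · intro i j hij
      apply inner_monL_ne
      intro h
      have := congrFun h k₁
      simp only [if_pos] at this
      exact hij this
    · intro j
      apply LinearPMap.le_graph_of_le (LinearPMap.le_closure _)
      have h1 := graph_dsym 1 (-2) (fun _ : Fin n => 2) (bexp k₀) (fun k => if k = k₁ then j else 0)
      have h2 : (1:ℝ) * eig (fun _ => 2) (fun k : Fin n => if k = k₁ then j else 0) +
          (-2) * eig (bexp k₀) (fun k => if k = k₁ then j else 0) = 0 := by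
        rw [eig_rel k₀ _ (by simp [hk])]
        ring
      rw [h2, Complex.ofReal_zero, zero_smul] at h1
      exact h1

end Pool.Agent.Lib.MP_d26497_an
end

section

open MeasureTheory Complex Metric Set Filter Topology

namespace Pool.Agent.Lib.MP_d26497_an

set_option linter.unusedSectionVars false

section Abstract2

variable {E : Type*} [NormedAddCommGroup E] [InnerProductSpace ℂ E] [CompleteSpace E]

noncomputable def lam' (k : ℕ) : ℝ := ((k : ℝ) + 1) * (k - 6)

/-- coefficients of the vector orthogonal to the range of `A - z`. -/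
noncomputable def cof (w : ℕ → ℝ) (z : ℂ) : ℕ → ℂ
  | 0 => 1
  | (j + 1) => -((starRingEnd ℂ) ((lam' (4 * j) : ℂ) - z) / (w (4 * j) : ℂ)) * cof w z j

lemma cof_zero (w : ℕ → ℝ) (z : ℂ) : cof w z 0 = 1 := rfl

lemma cof_succ (w : ℕ → ℝ) (z : ℂ) (j : ℕ) : cof w z (j + 1) =
    -((starRingEnd ℂ) ((lam' (4 * j) : ℂ) - z) / (w (4 * j) : ℂ)) * cof w z j := rfl

lemma w_lower {w : ℕ → ℝ} (hw : IsWeight w) (k : ℕ) : ((k : ℝ) + 1) * (k + 3) ≤ w k := by
  have h := hw.sq k
  have h0 := hw.pos k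
  have hk : (0:ℝ) ≤ k := Nat.cast_nonneg k
  apply le_of_sq_le_sq _ h0.le
  rw [h]
  have : ((k : ℝ) + 1) * (k + 2) * (k + 3) * (k + 4) - (((k : ℝ) + 1) * (k + 3)) ^ 2 =
      (k + 1) * (k + 3) * (2 * k + 5) := by ring
  nlinarith [mul_nonneg (mul_nonneg (by linarith : (0:ℝ) ≤ (k:ℝ) + 1) (by linarith : (0:ℝ) ≤ (k:ℝ) + 3))
    (by linarith : (0:ℝ) ≤ 2 * (k:ℝ) + 5)]

lemma w_upper {w : ℕ → ℝ} (hw : IsWeight w) (k : ℕ) : w k ≤ ((k : ℝ) + 5) ^ 2 := by
  have h := hw.sq k
  have hk : (0:ℝ) ≤ k := Nat.cast_nonneg k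
  apply le_of_sq_le_sq _ (by positivity)
  rw [h]
  have h1 : ((k : ℝ) + 1) * (k + 2) * (k + 3) * (k + 4) ≤ (k + 5) * (k + 5) * (k + 5) * (k + 5) := by
    gcongr <;> linarith
  refine h1.trans (le_of_eq (by ring))

lemma cof_bound {w : ℕ → ℝ} (hw : IsWeight w) (z : ℂ) :
    ∃ M : ℝ, 0 ≤ M ∧ ∀ j : ℕ, ‖cof w z j‖ * (4 * (j : ℝ) + 1) ^ 2 ≤ M := by
  set b : ℕ → ℝ := fun j => ‖cof w z j‖ * (4 * (j : ℝ) + 1) ^ 2 with hb
  have hb0 : ∀ j, 0 ≤ b j := fun j => by simp only [hb]; positivity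
  obtain ⟨j₀, hj₀⟩ := exists_nat_ge (max 6 ‖z‖)
  have hstep : ∀ j, j₀ ≤ j → b (j + 1) ≤ b j := by
    intro j hj
    have hjr : (j₀ : ℝ) ≤ j := by exact_mod_cast hj
    have h6 : (6:ℝ) ≤ j := ((le_max_left _ _).trans hj₀).trans hjr
    have hz : ‖z‖ ≤ j := ((le_max_right _ _).trans hj₀).trans hjr
    set k : ℕ := 4 * j with hk
    have hkr : (k : ℝ) = 4 * j := by simp [hk]
    have hk6 : (6:ℝ) ≤ k := by rw [hkr]; linarith
    have hkz : ‖z‖ ≤ k + 1 := by rw [hkr]; linarith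
    have h1 : ‖(lam' k : ℂ) - z‖ ≤ ((k : ℝ) + 1) * (k - 5) := by
      refine (norm_sub_le _ _).trans ?_
      rw [Complex.norm_real, Real.norm_eq_abs, abs_of_nonneg]
      · unfold lam'; nlinarith
      · unfold lam'
        apply mul_nonneg <;> linarith
    have h2 := w_lower hw k
    have hw0 := hw.pos k
    simp only [hb]
    rw [cof_succ, norm_mul, norm_neg, norm_div, RCLike.norm_conj, Complex.norm_real,
      Real.norm_of_nonneg (hw.pos _).le, ← hk]
    have h3 : ‖(lam' k : ℂ) - z‖ / w k ≤ ((k:ℝ) - 5) / (k + 3) := by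
      rw [div_le_div_iff₀ hw0 (by linarith)]
      calc ‖(lam' k : ℂ) - z‖ * (k + 3) ≤ (((k : ℝ) + 1) * (k - 5)) * (k + 3) := by
            apply mul_le_mul_of_nonneg_right h1 (by linarith)
        _ = ((k:ℝ) - 5) * (((k : ℝ) + 1) * (k + 3)) := by ring
        _ ≤ ((k:ℝ) - 5) * w k := mul_le_mul_of_nonneg_left h2 (by linarith)
    have h4 : ((k:ℝ) - 5) / (k + 3) * ((k:ℝ) + 5) ^ 2 ≤ ((k:ℝ) + 1) ^ 2 := by
      rw [div_mul_eq_mul_div, div_le_iff₀ (by linarith)]
      nlinarith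
    have h5 : (4 * ((j + 1 : ℕ) : ℝ) + 1) = (k : ℝ) + 5 := by rw [hkr]; push_cast; ring
    have h6' : (4 * (j : ℝ) + 1) = (k : ℝ) + 1 := by rw [hkr]
    rw [h5, h6']
    calc ‖(lam' k : ℂ) - z‖ / w k * ‖cof w z j‖ * ((k:ℝ) + 5) ^ 2
        = (‖(lam' k : ℂ) - z‖ / w k * ((k:ℝ) + 5) ^ 2) * ‖cof w z j‖ := by ring
      _ ≤ (((k:ℝ) - 5) / (k + 3) * ((k:ℝ) + 5) ^ 2) * ‖cof w z j‖ := by gcongr
      _ ≤ ((k:ℝ) + 1) ^ 2 * ‖cof w z j‖ := mul_le_mul_of_nonneg_right h4 (norm_nonneg _)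
      _ = ‖cof w z j‖ * ((k:ℝ) + 1) ^ 2 := by ring
  refine ⟨∑ i ∈ Finset.range (j₀ + 1), b i, Finset.sum_nonneg fun i _ => hb0 i, fun j => ?_⟩
  rcases le_or_gt j j₀ with hj | hj
  · exact Finset.single_le_sum (f := b) (fun i _ => hb0 i) (Finset.mem_range.mpr (by omega))
  · have h1 : ∀ i, b (j₀ + i) ≤ b j₀ := by
      intro i
      induction i with
      | zero => simp
      | succ i ih => exact (hstep (j₀ + i) (by omega)).trans ih
    have h2 := h1 (j - j₀)
    rw [Nat.add_sub_cancel' hj.le] at h2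
    exact h2.trans (Finset.single_le_sum (f := b) (fun i _ => hb0 i) (Finset.mem_range.mpr (by omega)))

/-- the lower order perturbation has empty resolvent set -/
lemma tri_no_resolvent {e : ℕ → E} (he : Orthonormal ℂ e) {w : ℕ → ℝ} (hw : IsWeight w)
    {A : E →ₗ.[ℂ] E}
    (hrel0 : ∀ x y, (x, y) ∈ A.graph → inner ℂ (e 0) y = (lam' 0 : ℂ) * inner ℂ (e 0) x)
    (hrel : ∀ x y, (x, y) ∈ A.graph → ∀ k,
      inner ℂ (e (k + 4)) y = (lam' (k + 4) : ℂ) * inner ℂ (e (k + 4)) x +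
        (w k : ℂ) * inner ℂ (e k) x) (z : ℂ) (R : E →L[ℂ] E) : ¬ IsResolvent A z R := by
  rintro ⟨hR, -⟩
  obtain ⟨M, hM0, hM⟩ := cof_bound hw z
  set a := cof w z with ha
  have han : ∀ j : ℕ, ‖a j‖ ≤ M * ((j : ℝ) + 1)⁻¹ ^ 2 := by
    intro j
    have h1 := hM j
    have hj : (0:ℝ) ≤ j := Nat.cast_nonneg j
    rw [inv_pow, ← div_eq_mul_inv, le_div_iff₀ (by positivity)]
    refine le_trans ?_ h1
    apply mul_le_mul_of_nonneg_left _ (norm_nonneg _)
    apply pow_le_pow_left₀ (by positivity)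
    linarith
  have hsum : Summable (fun j => a j • e (4 * j)) := by
    apply Summable.of_norm_bounded (summable_inv_sq.mul_left M)
    intro j
    rw [norm_smul, he.1, mul_one]
    exact han j
  set g := ∑' j, a j • e (4 * j) with hg
  have hgv : ∀ v : E, HasSum (fun j => (starRingEnd ℂ) (a j) * inner ℂ (e (4 * j)) v)
      (inner ℂ g v) := by
    intro v
    have h1 := hsum.hasSum.mapL (innerSL ℂ v)
    have h2 := (Complex.hasSum_conj'.mpr h1)
    simp only [innerSL_apply_apply, inner_smul_right, map_mul, inner_conj_symm] at h2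
    exact h2
  have hg0 : inner ℂ (e 0) g = 1 := by
    have h1 := hsum.hasSum.mapL (innerSL ℂ (e 0))
    have h2 : (fun j => (innerSL ℂ (e 0)) (a j • e (4 * j))) = fun j => if j = 0 then (1:ℂ) else 0 := by
      funext j
      rw [innerSL_apply_apply, inner_smul_right, orthonormal_iff_ite.mp he]
      by_cases h : j = 0
      · subst h; simp [ha, cof_zero]
      · rw [if_neg (by omega), if_neg h, mul_zero]
    rw [h2] at h1
    exact h1.unique (hasSum_ite_eq 0 (1:ℂ))
  -- `g` is orthogonal to the range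
  have horth : ∀ x y, (x, y) ∈ A.graph → inner ℂ g (y - z • x) = 0 := by
    intro x y hxy
    have hpart : ∀ J : ℕ, ∑ j ∈ Finset.range (J + 1),
        (starRingEnd ℂ) (a j) * inner ℂ (e (4 * j)) (y - z • x) =
        -((starRingEnd ℂ) (a (J + 1)) * (w (4 * J) : ℂ) * inner ℂ (e (4 * J)) x) := by
      have hstep : ∀ j : ℕ, (starRingEnd ℂ) (a j) * ((lam' (4 * j) : ℂ) - z) =
          -((starRingEnd ℂ) (a (j + 1)) * (w (4 * j) : ℂ)) := by
        intro j
        have hw0 : (w (4 * j) : ℂ) ≠ 0 := by exact_mod_cast (hw.pos _).ne'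
        rw [ha, cof_succ, map_mul, map_neg, map_div₀, Complex.conj_conj, Complex.conj_ofReal]
        field_simp
      intro J
      induction J with
      | zero =>
        rw [Finset.sum_range_one, inner_sub_right, inner_smul_right, mul_zero, hrel0 x y hxy]
        have := hstep 0
        simp only [mul_zero] at this
        linear_combination (inner ℂ (e 0) x : ℂ) * this
      | succ J ih =>
        rw [Finset.sum_range_succ, ih, inner_sub_right, inner_smul_right]
        have h4 : 4 * (J + 1) = 4 * J + 4 := by ring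
        have h5 := hstep (J + 1)
        rw [h4] at h5 ⊢
        rw [hrel x y hxy (4 * J)]
        linear_combination (inner ℂ (e (4 * J + 4)) x : ℂ) * h5
    have hlim1 := (hgv (y - z • x)).tendsto_sum_nat.comp (tendsto_add_atTop_nat 1)
    simp only [Function.comp_def, hpart] at hlim1
    have hlim2 : Tendsto (fun J : ℕ =>
        -((starRingEnd ℂ) (a (J + 1)) * (w (4 * J) : ℂ) * inner ℂ (e (4 * J)) x)) atTop (𝓝 0) := by
      have hs : Summable (fun k => ‖(inner ℂ (e k) x : ℂ)‖ ^ 2) := he.inner_products_summable x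
      have ht : Tendsto (fun k => ‖(inner ℂ (e k) x : ℂ)‖) atTop (𝓝 0) := by
        have h1 := (hs.tendsto_atTop_zero).sqrt
        rw [Real.sqrt_zero] at h1
        refine h1.congr fun k => ?_
        rw [Real.sqrt_sq (norm_nonneg _)]
      have ht4 : Tendsto (fun J : ℕ => M * ‖(inner ℂ (e (4 * J)) x : ℂ)‖) atTop (𝓝 0) := by
        have h1 : Tendsto (fun J : ℕ => 4 * J) atTop atTop :=
          tendsto_id.const_mul_atTop' (by norm_num : 0 < 4)
        have h2 := (ht.comp h1).const_mul M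
        rwa [mul_zero] at h2
      apply squeeze_zero_norm _ ht4
      intro J
      rw [norm_neg, norm_mul, norm_mul, RCLike.norm_conj, Complex.norm_real,
        Real.norm_of_nonneg (hw.pos _).le]
      apply mul_le_mul_of_nonneg_right _ (norm_nonneg _)
      have h1 := hM (J + 1)
      have h2 := w_upper hw (4 * J)
      refine le_trans (mul_le_mul_of_nonneg_left h2 (norm_nonneg _)) ?_
      refine le_trans (le_of_eq ?_) h1
      push_cast; ring
    exact tendsto_nhds_unique hlim1 hlim2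
  obtain ⟨h, hh⟩ := hR g
  have h1 := horth (R g) (A ⟨R g, h⟩) (LinearPMap.mem_graph _ ⟨R g, h⟩)
  have h2 : A ⟨R g, h⟩ - z • R g = -g := by
    have h3 := congrArg (fun t => -t) hh
    simp only [neg_sub] at h3
    exact h3
  rw [h2, inner_neg_right, neg_eq_zero, inner_self_eq_zero] at h1
  rw [h1, inner_zero_right] at hg0
  exact zero_ne_one hg0

end Abstract2

end Pool.Agent.Lib.MP_d26497_an
end

section

open MeasureTheory Complex Metric Set Filter Topology

namespace Pool.Agent.Lib.MP_d26497_an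

set_option linter.unusedSectionVars false

/-- constant exponent -/
def ce (k : ℕ) : Fin 1 → ℕ := fun _ => k

lemma ce_add (a b : ℕ) : ce a + ce b = ce (a + b) := rfl

lemma eq_ce (γ : Fin 1 → ℕ) : γ = ce (γ 0) := by
  ext i; rw [Subsingleton.elim i 0]; rfl

noncomputable def m1 (k : ℕ) : Fock 1 := monL (ce k)

lemma inner_m1 (j k : ℕ) : inner ℂ (m1 j) (m1 k) = mom k j := by
  unfold m1
  rw [inner_monL_monL]
  simp [ce]

/-- the symbol `|z|⁴ + z⁴ + c |z|²` -/
noncomputable def osym (c : ℝ) (z : Fin 1 → ℂ) : ℂ :=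
  mon (ce 2) z * cmon (ce 2) z + mon (ce 4) z + c * (mon (ce 1) z * cmon (ce 1) z)

lemma conj_osym_mul (c : ℝ) (k : ℕ) (z : Fin 1 → ℂ) :
    (starRingEnd ℂ) (osym c z) * mon (ce k) z =
      mon (ce (2 + k)) z * cmon (ce 2) z + mon (ce k) z * cmon (ce 4) z +
        c * (mon (ce (1 + k)) z * cmon (ce 1) z) := by
  unfold osym
  simp only [map_add, map_mul, Complex.conj_ofReal, conj_mon, conj_cmon]
  rw [← ce_add, ← ce_add, ← mon_mul, ← mon_mul]
  ring

lemma osym_mul (c : ℝ) (k : ℕ) (z : Fin 1 → ℂ) :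
    osym c z * mon (ce k) z =
      mon (ce (2 + k)) z * cmon (ce 2) z + mon (ce (4 + k)) z * cmon (ce 0) z +
        c * (mon (ce (1 + k)) z * cmon (ce 1) z) := by
  unfold osym
  rw [← ce_add, ← ce_add, ← ce_add, ← mon_mul, ← mon_mul, ← mon_mul]
  have : cmon (ce 0) z = 1 := by simp [cmon, ce]
  rw [this]
  ring

lemma memLp_three (a a' b b' d d' : ℕ) (c : ℝ) :
    MemLp (fun z : Fin 1 → ℂ => mon (ce a) z * cmon (ce a') z + mon (ce b) z * cmon (ce b') z +
        c * (mon (ce d) z * cmon (ce d') z)) 2 (mu 1) :=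
  ((memLp_mon_cmon _ _).add (memLp_mon_cmon _ _)).add ((memLp_mon_cmon _ _).const_mul _)

lemma memLp_conj_osym (c : ℝ) (β : Fin 1 → ℕ) :
    MemLp (fun z => (starRingEnd ℂ) (osym c z) * mon β z) 2 (mu 1) := by
  rw [eq_ce β]
  simp only [conj_osym_mul]
  exact memLp_three _ _ _ _ _ _ _

lemma memLp_osym (c : ℝ) (k : ℕ) : MemLp (fun z => osym c z * mon (ce k) z) 2 (mu 1) := by
  simp only [osym_mul]
  exact memLp_three _ _ _ _ _ _ _

lemma integral_three (a a' b b' d d' j : ℕ) (c : ℝ) :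
    ∫ z : Fin 1 → ℂ, (mon (ce a) z * cmon (ce a') z + mon (ce b) z * cmon (ce b') z +
        c * (mon (ce d) z * cmon (ce d') z)) * cmon (ce j) z ∂(mu 1) =
      mom a (a' + j) + mom b (b' + j) + c * mom d (d' + j) := by
  have hi : ∀ a b : ℕ, Integrable (fun z : Fin 1 → ℂ => mon (ce a) z * cmon (ce b) z) (mu 1) :=
    fun a b => (memLp_mon _).integrable_mul (memLp_cmon _)
  have h1 : ∀ z : Fin 1 → ℂ, (mon (ce a) z * cmon (ce a') z + mon (ce b) z * cmon (ce b') z +
        c * (mon (ce d) z * cmon (ce d') z)) * cmon (ce j) z =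
      (mon (ce a) z * cmon (ce (a' + j)) z + mon (ce b) z * cmon (ce (b' + j)) z) +
        c * (mon (ce d) z * cmon (ce (d' + j)) z) := by
    intro z
    rw [← ce_add, ← ce_add, ← ce_add, ← cmon_mul, ← cmon_mul, ← cmon_mul]
    ring
  have hm : ∀ a b : ℕ, ∫ z : Fin 1 → ℂ, mon (ce a) z * cmon (ce b) z ∂(mu 1) = mom a b := by
    intro a b
    rw [moment]
    simp [ce]
  simp only [h1]
  have hA : Integrable (fun z : Fin 1 → ℂ => mon (ce a) z * cmon (ce (a' + j)) z +
      mon (ce b) z * cmon (ce (b' + j)) z) (mu 1) := (hi _ _).add (hi _ _)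
  rw [integral_add hA ((hi _ _).const_mul _), integral_add (hi _ _) (hi _ _),
    integral_const_mul, hm, hm, hm]

noncomputable def mu_k (c : ℝ) (k : ℕ) : ℝ := lam k + c * (k + 1)

lemma mom2 (k : ℕ) : mom (2 + k) (2 + k) = (lam k : ℂ) * mom k k := by
  rw [mom_shift]
  congr 2
  unfold lam
  simp [Nat.ascFactorial_succ, Nat.ascFactorial_zero]
  ring

lemma mom1 (k : ℕ) : mom (1 + k) (1 + k) = ((k : ℂ) + 1) * mom k k := by
  rw [mom_shift]
  simp [Nat.ascFactorial_succ, Nat.ascFactorial_zero]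

lemma mom4 (k : ℕ) : mom (4 + k) (4 + k) =
    ((((k : ℝ) + 1) * (k + 2) * (k + 3) * (k + 4) : ℝ) : ℂ) * mom k k := by
  rw [mom_shift]
  congr 2
  simp [Nat.ascFactorial_succ, Nat.ascFactorial_zero]
  ring

lemma proj_lt (c : ℝ) {k : ℕ} (hk : k < 4) :
    proj _ (memLp_conj_osym c (ce k)) = ((mu_k c k : ℝ) : ℂ) • m1 k := by
  apply ext_monL
  intro γ
  rw [eq_ce γ]
  set j := γ 0
  rw [inner_proj_monL, inner_smulF]
  have h0 : inner ℂ (monL (ce j)) (m1 k) = mom k j := inner_m1 j k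
  rw [h0]
  simp only [conj_osym_mul]
  rw [integral_three]
  by_cases h : k = j
  · rw [← h, mom2, mom1, mom_ne (by omega : k ≠ 4 + k)]
    unfold mu_k
    push_cast; ring
  · rw [mom_ne (by omega : 2 + k ≠ 2 + j), mom_ne (by omega : k ≠ 4 + j),
      mom_ne (by omega : 1 + k ≠ 1 + j), mom_ne h]
    ring

lemma proj_ge (c : ℝ) (k : ℕ) :
    proj _ (memLp_conj_osym c (ce (k + 4))) = ((mu_k c (k + 4) : ℝ) : ℂ) • m1 (k + 4) +
      ((((k : ℝ) + 1) * (k + 2) * (k + 3) * (k + 4) : ℝ) : ℂ) • m1 k := by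
  apply ext_monL
  intro γ
  rw [eq_ce γ]
  set j := γ 0
  have hadd : ∀ x y z : Fock 1, inner ℂ x (y + z) = inner ℂ x y + inner ℂ x z :=
    fun x y z => inner_add_right x y z
  rw [inner_proj_monL, hadd, inner_smulF, inner_smulF]
  have h0 : ∀ k, inner ℂ (monL (ce j)) (m1 k) = mom k j := fun k => inner_m1 j k
  rw [h0, h0]
  simp only [conj_osym_mul]
  rw [integral_three]
  by_cases h : j = k + 4
  · rw [h, mom2, mom1, mom_ne (by omega : k + 4 ≠ 4 + (k + 4)), mom_ne (by omega : k ≠ k + 4)]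
    unfold mu_k
    push_cast; ring
  · by_cases h' : j = k
    · rw [h', add_comm k 4, mom4, mom_ne (by omega : 2 + (4 + k) ≠ 2 + k),
        mom_ne (by omega : 1 + (4 + k) ≠ 1 + k), mom_ne (by omega : 4 + k ≠ k)]
      ring
    · rw [mom_ne (by omega : 2 + (k + 4) ≠ 2 + j), mom_ne (by omega : k + 4 ≠ 4 + j),
        mom_ne (by omega : 1 + (k + 4) ≠ 1 + j), mom_ne (by omega : k + 4 ≠ j),
        mom_ne (by omega : k ≠ j)]
      ring

lemma proj_osym (c : ℝ) (k : ℕ) :
    proj _ (memLp_osym c k) = ((mu_k c k : ℝ) : ℂ) • m1 k + m1 (k + 4) := by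
  apply ext_monL
  intro γ
  rw [eq_ce γ]
  set j := γ 0
  have hadd : ∀ x y z : Fock 1, inner ℂ x (y + z) = inner ℂ x y + inner ℂ x z :=
    fun x y z => inner_add_right x y z
  rw [inner_proj_monL, hadd, inner_smulF]
  have h0 : ∀ k, inner ℂ (monL (ce j)) (m1 k) = mom k j := fun k => inner_m1 j k
  rw [h0, h0]
  simp only [osym_mul]
  rw [integral_three, zero_add, add_comm k 4]
  by_cases h : j = k
  · rw [h, mom2, mom1]
    unfold mu_k
    push_cast; ring
  · rw [mom_ne (by omega : 2 + k ≠ 2 + j), mom_ne (by omega : 1 + k ≠ 1 + j),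
      mom_ne (by omega : k ≠ j)]
    ring


lemma m1_mem (c : ℝ) (k : ℕ) : m1 k ∈ (toeplitz (osym c)).domain := by
  show MemLp (mulF (osym c) (m1 k)) 2 (mu 1)
  exact (memLp_congr_ae (mulF_monL _ (ce k))).mpr (memLp_osym c k)

lemma toeplitz_m1 (c : ℝ) (k : ℕ) :
    toeplitz (osym c) ⟨m1 k, m1_mem c k⟩ = ((mu_k c k : ℝ) : ℂ) • m1 k + m1 (k + 4) := by
  rw [← proj_osym]
  show proj (mulF (osym c) (m1 k)) _ = _
  apply proj_congr
  exact mulF_monL _ (ce k)

lemma rel_lt (c : ℝ) {x y : Fock 1} (h : (x, y) ∈ (toeplitz (osym c)).graph.topologicalClosure)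
    {k : ℕ} (hk : k < 4) : inner ℂ (m1 k) y = ((mu_k c k : ℝ) : ℂ) * inner ℂ (m1 k) x := by
  have h1 := inner_closure (memLp_conj_osym c (ce k)) h
  rw [proj_lt c hk, inner_smulF_left] at h1
  exact h1

lemma rel_ge (c : ℝ) {x y : Fock 1} (h : (x, y) ∈ (toeplitz (osym c)).graph.topologicalClosure)
    (k : ℕ) : inner ℂ (m1 (k + 4)) y = ((mu_k c (k + 4) : ℝ) : ℂ) * inner ℂ (m1 (k + 4)) x +
      ((((k : ℝ) + 1) * (k + 2) * (k + 3) * (k + 4) : ℝ) : ℂ) * inner ℂ (m1 k) x := by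
  have h1 := inner_closure (memLp_conj_osym c (ce (k + 4))) h
  have hadd : ∀ x y z : Fock 1, inner ℂ (x + y) z = inner ℂ x z + inner ℂ y z :=
    fun x y z => inner_add_left x y z
  rw [proj_ge c k, hadd, inner_smulF_left, inner_smulF_left] at h1
  exact h1

/-- norms -/
noncomputable def nu (k : ℕ) : ℝ := ‖m1 k‖

lemma nu_pos (k : ℕ) : 0 < nu k := norm_pos_iff.mpr (monL_ne_zero _)

lemma nu_sq (k : ℕ) : nu k ^ 2 = Real.pi * k.factorial := by
  have h := inner_m1 k k
  have h1 := @inner_self_eq_norm_sq_to_K ℂ (Fock 1) _ _ _ (m1 k)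
  rw [h1, mom_eq] at h
  apply Complex.ofReal_injective
  push_cast
  exact h

noncomputable def ww (k : ℕ) : ℝ := nu (k + 4) / nu k

lemma ww_weight : IsWeight ww where
  pos k := div_pos (nu_pos _) (nu_pos _)
  sq k := by
    unfold ww
    rw [div_pow, nu_sq, nu_sq]
    have h1 : ((k + 4).factorial : ℝ) = (k + 4) * (k + 3) * (k + 2) * (k + 1) * k.factorial := by
      simp only [Nat.factorial_succ]
      push_cast
      ring
    rw [h1]
    have h2 : (k.factorial : ℝ) ≠ 0 := by positivity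
    have h3 := Real.pi_ne_zero
    field_simp

/-- orthonormal basis -/
noncomputable def eh (k : ℕ) : Fock 1 := (((nu k)⁻¹ : ℝ) : ℂ) • m1 k

lemma inner_eh (k : ℕ) (x : Fock 1) :
    inner ℂ (eh k) x = (((nu k)⁻¹ : ℝ) : ℂ) * inner ℂ (m1 k) x := inner_smulF_left _ _ _

lemma eh_orth : Orthonormal ℂ eh := by
  constructor
  · intro k
    have h1 : ‖eh k‖ = ‖(((nu k)⁻¹ : ℝ) : ℂ)‖ * ‖m1 k‖ := norm_smul _ _
    rw [h1, Complex.norm_real, Real.norm_of_nonneg (inv_nonneg.mpr (nu_pos k).le)]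
    exact inv_mul_cancel₀ (nu_pos k).ne'
  · intro i j hij
    rw [inner_eh]
    have h1 : inner ℂ (m1 i) (eh j) = (((nu j)⁻¹ : ℝ) : ℂ) * inner ℂ (m1 i) (m1 j) :=
      inner_smulF _ _ _
    rw [h1, inner_m1, mom_ne (Ne.symm hij), mul_zero, mul_zero]

lemma m1_eq (k : ℕ) : m1 k = ((nu k : ℝ) : ℂ) • eh k := by
  unfold eh
  rw [smul_smul, ← Complex.ofReal_mul, mul_inv_cancel₀ (nu_pos k).ne', Complex.ofReal_one, one_smul]

lemma eh_ext (x : Fock 1) (h : ∀ i, inner ℂ (eh i) x = 0) : x = 0 := by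
  apply ext_zero
  intro β
  rw [eq_ce β]
  have h1 := h (β 0)
  rw [inner_eh] at h1
  have h2 : (((nu (β 0))⁻¹ : ℝ) : ℂ) ≠ 0 := by
    exact_mod_cast inv_ne_zero (nu_pos (β 0)).ne'
  exact (mul_eq_zero.mp h1).resolve_left h2

lemma graph_eh (c : ℝ) (k : ℕ) :
    (eh k, ((mu_k c k : ℝ) : ℂ) • eh k + (ww k : ℂ) • eh (k + 4)) ∈ (toeplitz (osym c)).graph := by
  have h0 : (m1 k, ((mu_k c k : ℝ) : ℂ) • m1 k + m1 (k + 4)) ∈ (toeplitz (osym c)).graph := by
    rw [LinearPMap.mem_graph_iff]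
    exact ⟨⟨m1 k, m1_mem c k⟩, rfl, toeplitz_m1 c k⟩
  have h1 := (toeplitz (osym c)).graph.smul_mem (((nu k)⁻¹ : ℝ) : ℂ) h0
  rw [Prod.smul_mk, smul_add] at h1
  have h2 : (((nu k)⁻¹ : ℝ) : ℂ) • m1 (k + 4) = (ww k : ℂ) • eh (k + 4) := by
    rw [m1_eq (k + 4), smul_smul]
    congr 1
    unfold ww
    push_cast
    rw [div_eq_inv_mul]
  have h3 : (((nu k)⁻¹ : ℝ) : ℂ) • ((mu_k c k : ℝ) : ℂ) • m1 k = ((mu_k c k : ℝ) : ℂ) • eh k := by
    unfold eh
    rw [smul_comm]
  rw [h2, h3] at h1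
  exact h1

lemma rel_eh_lt (c : ℝ) {x y : Fock 1}
    (h : (x, y) ∈ (toeplitz (osym c)).graph.topologicalClosure)
    {k : ℕ} (hk : k < 4) : inner ℂ (eh k) y = ((mu_k c k : ℝ) : ℂ) * inner ℂ (eh k) x := by
  rw [inner_eh, inner_eh, rel_lt c h hk]
  ring

lemma rel_eh_ge (c : ℝ) {x y : Fock 1}
    (h : (x, y) ∈ (toeplitz (osym c)).graph.topologicalClosure)
    (k : ℕ) : inner ℂ (eh (k + 4)) y = ((mu_k c (k + 4) : ℝ) : ℂ) * inner ℂ (eh (k + 4)) x +
      (ww k : ℂ) * inner ℂ (eh k) x := by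
  rw [inner_eh, inner_eh, inner_eh, rel_ge c h k]
  have h1 : (((nu (k + 4))⁻¹ : ℝ) : ℂ) *
      ((((k : ℝ) + 1) * (k + 2) * (k + 3) * (k + 4) : ℝ) : ℂ) =
      (ww k : ℂ) * (((nu k)⁻¹ : ℝ) : ℂ) := by
    rw [← Complex.ofReal_mul, ← Complex.ofReal_mul, ← ww_weight.sq k]
    congr 1
    unfold ww
    have h1 := (nu_pos k).ne'
    have h2 := (nu_pos (k + 4)).ne'
    field_simp
  linear_combination (inner ℂ (m1 k) x : ℂ) * h1

lemma mu_zero (k : ℕ) : mu_k 0 k = lam k := by unfold mu_k; ring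

lemma mu_eight (k : ℕ) : mu_k (-8) k = lam' k := by unfold mu_k lam lam'; ring

lemma one_compact : HasCompactResolvent (toeplitz (osym 0)).closure := by
  have hcl : (toeplitz (osym 0)).IsClosable := isClosable (memLp_conj_osym 0)
  apply tri_resolvent eh_orth eh_ext ww_weight hcl
  · intro k
    have := graph_eh 0 k
    rwa [mu_zero] at this
  · intro x y h k hk
    have := rel_eh_lt 0 h hk
    rwa [mu_zero] at this
  · intro x y h k
    have := rel_eh_ge 0 h k
    rwa [mu_zero] at this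

lemma one_not_compact : ¬ HasCompactResolvent (toeplitz (osym (-8))).closure := by
  have hcl : (toeplitz (osym (-8))).IsClosable := isClosable (memLp_conj_osym (-8))
  rintro ⟨z, R, hR, -⟩
  refine tri_no_resolvent eh_orth ww_weight ?_ ?_ z R hR
  · intro x y h
    rw [← hcl.graph_closure_eq_closure_graph] at h
    have := rel_eh_lt (-8) h (by norm_num : 0 < 4)
    rwa [mu_eight] at this
  · intro x y h k
    rw [← hcl.graph_closure_eq_closure_graph] at h
    have := rel_eh_ge (-8) h k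
    rwa [mu_eight] at this

end Pool.Agent.Lib.MP_d26497_an
end

section

open MeasureTheory Complex Metric Set Filter Topology

namespace Pool.Agent.Lib.MP_d26497_an

/-- the monomial `z ^ 4` -/
noncomputable def z4 : MvPolynomial (Fin 1 ⊕ Fin 1) ℂ := (MvPolynomial.X (Sum.inl 0)) ^ 4

lemma symb_z4 (z : Fin 1 → ℂ) : symb z4 z = mon (ce 4) z := by
  unfold symb z4 mon
  simp [ce]

lemma symb_psi_one : symb (Pm (ce 2) + z4) = osym 0 := by
  ext z
  rw [symb_add, symb_Pm, symb_z4]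
  unfold osym
  simp

lemma symb_phi_one : symb (Pm (ce 2) + z4 + MvPolynomial.C (-8) * Pm (ce 1)) = osym (-8) := by
  ext z
  rw [symb_add, symb_C_mul, symb_add, symb_Pm, symb_z4, symb_Pm]
  unfold osym
  simp

lemma homog_one : (Pm (ce 2) + z4).IsHomogeneous 4 := by
  have h1 := Pm_homogeneous (ce 2)
  have h2 : z4.IsHomogeneous 4 := by
    have := (MvPolynomial.isHomogeneous_X (R := ℂ) (Sum.inl (0 : Fin 1) : Fin 1 ⊕ Fin 1)).pow 4
    simpa [z4] using this
  have h3 : 2 * ∑ k, ce 2 k = 4 := by simp [ce]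
  rw [h3] at h1
  exact h1.add h2

lemma degree_one : (MvPolynomial.C (-8 : ℂ) * Pm (ce 1)).totalDegree ≤ 4 - 1 := by
  have h1 : (MvPolynomial.C (-8 : ℂ) * Pm (ce 1)).IsHomogeneous (0 + 2 * ∑ k, ce 1 k) :=
    (MvPolynomial.isHomogeneous_C _ _).mul (Pm_homogeneous _)
  refine h1.totalDegree_le.trans ?_
  simp [ce]

theorem eq_one :
    ∃ (N : ℕ) (ψ φ₁ : MvPolynomial (Fin 1 ⊕ Fin 1) ℂ),
      1 ≤ N ∧ ψ.IsHomogeneous N ∧ φ₁.totalDegree ≤ N - 1 ∧
      (toeplitz (symb ψ)).IsClosable ∧ (toeplitz (symb (ψ + φ₁))).IsClosable ∧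
      HasCompactResolvent (toeplitz (symb ψ)).closure ∧
      ¬ HasCompactResolvent (toeplitz (symb (ψ + φ₁))).closure := by
  refine ⟨4, Pm (ce 2) + z4, MvPolynomial.C (-8) * Pm (ce 1), by norm_num, homog_one,
    degree_one, ?_, ?_, ?_, ?_⟩
  · rw [symb_psi_one]; exact isClosable (memLp_conj_osym 0)
  · rw [symb_phi_one]; exact isClosable (memLp_conj_osym (-8))
  · rw [symb_psi_one]; exact one_compact
  · rw [symb_phi_one]; exact one_not_compact

/-- every dimension -/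
theorem all_dims (n : ℕ) (hn : 1 ≤ n) :
    ∃ (N : ℕ) (ψ φ₁ : MvPolynomial (Fin n ⊕ Fin n) ℂ),
      1 ≤ N ∧ ψ.IsHomogeneous N ∧ φ₁.totalDegree ≤ N - 1 ∧
      (toeplitz (symb ψ)).IsClosable ∧ (toeplitz (symb (ψ + φ₁))).IsClosable ∧
      HasCompactResolvent (toeplitz (symb ψ)).closure ∧
      ¬ HasCompactResolvent (toeplitz (symb (ψ + φ₁))).closure := by
  rcases Nat.lt_or_ge n 2 with h | h
  · obtain rfl : n = 1 := by omega
    exact eq_one
  · exact ge_two h

end Pool.Agent.Lib.MP_d26497_an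
end
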