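import Mathlib

/-!
# The Bargmann-Segal (Fock) space on `ℂⁿ`

Basic facts: mean value property, reproducing formula, closedness, completeness of the monomials.
-/

open MeasureTheory Complex Metric Set Filter Topology

namespace Pool.Agent.Lib.MP_d26497_an

/-- The Gaussian weight `e^{-|z|²}` on `ℂⁿ`. -/
noncomputable def gw {n : ℕ} (z : Fin n → ℂ) : ℝ := Real.exp (-∑ k, ‖z k‖ ^ 2)

/-- The measure `μ` on `ℂⁿ` with density `e^{-|z|²}` with respect to Lebesgue measure. -/
noncomputable def mu (n : ℕ) : Measure (Fin n → ℂ) :=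
  (volume : Measure (Fin n → ℂ)).withDensity (fun z => ENNReal.ofReal (gw z))

variable {n : ℕ}

lemma gw_pos (z : Fin n → ℂ) : 0 < gw z := Real.exp_pos _

lemma gw_cont : Continuous (gw : (Fin n → ℂ) → ℝ) := by
  unfold gw; fun_prop

lemma gw_prod (z : Fin n → ℂ) : gw z = ∏ k, Real.exp (-‖z k‖ ^ 2) := by
  unfold gw; rw [← Finset.sum_neg_distrib, Real.exp_sum]

lemma integrable_mu_iff {E : Type*} [NormedAddCommGroup E] [NormedSpace ℝ E]
    (f : (Fin n → ℂ) → E) : Integrable f (mu n) ↔ Integrable (fun z => gw z • f z) volume := by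
  unfold mu
  rw [integrable_withDensity_iff_integrable_smul₀']
  · simp only [ENNReal.toReal_ofReal (gw_pos _).le]
  · exact (ENNReal.measurable_ofReal.comp gw_cont.measurable).aemeasurable
  · exact Eventually.of_forall (fun z => ENNReal.ofReal_lt_top)

lemma integral_mu {E : Type*} [NormedAddCommGroup E] [NormedSpace ℝ E]
    (f : (Fin n → ℂ) → E) : ∫ z, f z ∂(mu n) = ∫ z, gw z • f z := by
  unfold mu
  rw [integral_withDensity_eq_integral_toReal_smul₀]
  · simp only [ENNReal.toReal_ofReal (gw_pos _).le]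
  · exact (ENNReal.measurable_ofReal.comp gw_cont.measurable).aemeasurable
  · exact Eventually.of_forall (fun z => ENNReal.ofReal_lt_top)

/-- one variable Gaussian integrability -/
lemma integrable_gauss_one (c : ℝ) : Integrable (fun z : ℂ => Real.exp (c * ‖z‖) * Real.exp (-‖z‖ ^ 2)) := by
  have h1 : Integrable (fun v : ℂ => cexp (-(1/2 : ℂ) * (‖v‖ : ℂ) ^ 2 + 0 * (inner ℝ (0:ℂ) v : ℝ))) :=
    GaussianFourier.integrable_cexp_neg_mul_sq_norm_add (by norm_num) 0 0
  have h2 : Integrable (fun v : ℂ => Real.exp (c ^ 2 / 2) * Real.exp (-(1/2) * ‖v‖ ^ 2)) := by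
    have := h1.norm.const_mul (Real.exp (c ^ 2 / 2))
    refine this.congr (Eventually.of_forall fun v => ?_)
    simp only [Complex.norm_exp]
    congr 2
    simp [← Complex.ofReal_pow, Complex.mul_re]
  refine h2.mono' ?_ (Eventually.of_forall fun v => ?_)
  · apply Continuous.aestronglyMeasurable; fun_prop
  · rw [Real.norm_of_nonneg (by positivity), ← Real.exp_add, ← Real.exp_add]
    apply Real.exp_le_exp.mpr
    nlinarith [sq_nonneg (c - ‖v‖)]

/-- exponential growth functions are in `L¹(μ)` -/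
lemma integrable_expgrowth (c : ℝ) : Integrable (fun z : Fin n → ℂ => Real.exp (c * ∑ k, ‖z k‖)) (mu n) := by
  rw [integrable_mu_iff]
  have : (fun z : Fin n → ℂ => gw z • Real.exp (c * ∑ k, ‖z k‖)) =
      fun z => ∏ k, (Real.exp (c * ‖z k‖) * Real.exp (-‖z k‖ ^ 2)) := by
    ext z
    rw [smul_eq_mul, gw_prod, Finset.mul_sum, Real.exp_sum, ← Finset.prod_mul_distrib]
    congr 1; ext k; ring
  rw [this]
  exact Integrable.fintype_prod (f := fun (_ : Fin n) (z : ℂ) =>
    Real.exp (c * ‖z‖) * Real.exp (-‖z‖ ^ 2)) (fun _ => integrable_gauss_one c)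

instance : IsFiniteMeasure (mu n) := by
  have h := integrable_expgrowth (n := n) 0
  simp only [zero_mul, Real.exp_zero] at h
  exact (integrable_const_iff_isFiniteMeasure one_ne_zero).mp h

/-- functions of exponential growth are in every `L²(μ)` -/
lemma memLp_of_growth {f : (Fin n → ℂ) → ℂ} (hf : AEStronglyMeasurable f (mu n)) (C c : ℝ)
    (h : ∀ z, ‖f z‖ ≤ C * Real.exp (c * ∑ k, ‖z k‖)) : MemLp f 2 (mu n) := by
  rw [memLp_two_iff_integrable_sq_norm hf]
  refine ((integrable_expgrowth (n := n) (2 * c)).const_mul (C ^ 2)).mono' (hf.norm.pow 2)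
    (Eventually.of_forall fun z => ?_)
  rw [Real.norm_of_nonneg (by positivity)]
  have h1 := pow_le_pow_left₀ (norm_nonneg _) (h z) 2
  refine h1.trans (le_of_eq ?_)
  rw [mul_pow, ← Real.exp_nat_mul]
  congr 2
  push_cast; ring

lemma gw_smul (a : ℂ) (ha : ‖a‖ = 1) (z : Fin n → ℂ) : gw (a • z) = gw z := by
  unfold gw
  simp [ha]

lemma rot_measurePreserving (a : ℂ) (ha : ‖a‖ = 1) :
    MeasurePreserving (fun z : Fin n → ℂ => a • z) volume volume := by
  have h := volume_preserving_pi (ι := Fin n) (f := fun _ => rotation ⟨a, mem_sphere_zero_iff_norm.2 ha⟩)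
    (fun _ => LinearIsometryEquiv.measurePreserving _)
  have h2 : (fun z : Fin n → ℂ => a • z) =
      fun z i => rotation ⟨a, mem_sphere_zero_iff_norm.2 ha⟩ (z i) := by
    ext z i; rfl
  rw [h2]; exact h

lemma rot_embedding (a : ℂ) (ha : ‖a‖ = 1) :
    MeasurableEmbedding (fun z : Fin n → ℂ => a • z) := by
  have ha0 : a ≠ 0 := by intro h; simp [h] at ha
  exact (Homeomorph.smulOfNeZero a ha0).measurableEmbedding

lemma integral_rot {E : Type*} [NormedAddCommGroup E] [NormedSpace ℝ E] (a : ℂ) (ha : ‖a‖ = 1)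
    (h : (Fin n → ℂ) → E) : ∫ z, h (a • z) ∂(mu n) = ∫ z, h z ∂(mu n) := by
  rw [integral_mu, integral_mu]
  have := (rot_measurePreserving (n := n) a ha).integral_comp (rot_embedding a ha)
    (fun z => gw z • h z)
  simp only [gw_smul a ha] at this
  exact this

lemma integrable_rot {E : Type*} [NormedAddCommGroup E] [NormedSpace ℝ E] (a : ℂ) (ha : ‖a‖ = 1)
    {h : (Fin n → ℂ) → E} (hh : Integrable h (mu n)) : Integrable (fun z => h (a • z)) (mu n) := by
  rw [integrable_mu_iff] at hh ⊢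
  have := (rot_measurePreserving (n := n) a ha).integrable_comp_emb (rot_embedding a ha)
    (g := fun z => gw z • h z)
  have h2 := this.mpr hh
  simp only [Function.comp_def, gw_smul a ha] at h2
  exact h2

/-- total mass -/
noncomputable def mass (n : ℕ) : ℝ := (mu n).real univ

lemma mass_pos : 0 < mass n := by
  unfold mass
  rw [measureReal_def, ENNReal.toReal_pos_iff]
  refine ⟨?_, measure_lt_top _ _⟩
  rw [pos_iff_ne_zero]
  intro h
  have h1 : (mu n) = 0 := by rwa [← Measure.measure_univ_eq_zero]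
  have h2 : ∫ z, (1:ℝ) ∂(mu n) = 0 := by rw [h1]; simp
  rw [integral_mu] at h2
  have hint : Integrable (fun z : Fin n → ℂ => gw z • (1:ℝ)) := by
    rw [← integrable_mu_iff]; exact integrable_const 1
  have h3 := (integral_eq_zero_iff_of_nonneg (fun z => by simp [(gw_pos z).le]) hint).mp h2
  have h4 : (fun z : Fin n → ℂ => gw z • (1:ℝ)) =ᵐ[volume] fun _ => 0 := h3
  have h5 : ∀ z : Fin n → ℂ, gw z • (1:ℝ) = 0 := by
    have := Continuous.ae_eq_iff_eq (volume : Measure (Fin n → ℂ))
      (f := fun z : Fin n → ℂ => gw z • (1:ℝ)) (g := fun _ => (0:ℝ)) (gw_cont.smul continuous_const)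
      continuous_const
    exact fun z => congrFun (this.mp h4) z
  have := h5 0
  simp only [smul_eq_mul, mul_one] at this
  exact (gw_pos _).ne' this

/-- Mean value property -/
lemma mean_value {h : (Fin n → ℂ) → ℂ} (hd : Differentiable ℂ h) (hi : Integrable h (mu n)) :
    ∫ z, h z ∂(mu n) = mass n * h 0 := by
  have hnorm : ∀ θ : ℝ, ‖circleMap 0 1 θ‖ = 1 := fun θ => by simp
  have h1 : ∀ z : Fin n → ℂ, ∫ θ in (0:ℝ)..(2 * Real.pi), h (circleMap 0 1 θ • z) =
      2 * Real.pi * h 0 := by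
    intro z
    have hd' : Differentiable ℂ (fun t : ℂ => h (t • z)) :=
      hd.comp (differentiable_id.smul_const z)
    have h2 : Real.circleAverage (fun t : ℂ => h (t • z)) 0 1 = h ((0:ℂ) • z) :=
      DiffContOnCl.circleAverage (f := fun t : ℂ => h (t • z)) hd'.diffContOnCl
    rw [Real.circleAverage, zero_smul] at h2
    have hpi : (2 * Real.pi : ℝ) ≠ 0 := by positivity
    rw [inv_smul_eq_iff₀ hpi] at h2
    rw [h2, Complex.real_smul]; push_cast; ring
  have hmeas : AEStronglyMeasurable (Function.uncurry fun (z : Fin n → ℂ) (θ : ℝ) =>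
      h (circleMap 0 1 θ • z)) ((mu n).prod (volume.restrict (Ioc 0 (2 * Real.pi)))) := by
    apply Continuous.aestronglyMeasurable
    have : Continuous (fun p : (Fin n → ℂ) × ℝ => circleMap 0 1 p.2 • p.1) :=
      ((continuous_circleMap 0 1).comp continuous_snd).smul continuous_fst
    exact hd.continuous.comp this
  have hint : Integrable (Function.uncurry fun (z : Fin n → ℂ) (θ : ℝ) =>
      h (circleMap 0 1 θ • z)) ((mu n).prod (volume.restrict (Ioc 0 (2 * Real.pi)))) := by
    rw [integrable_prod_iff' hmeas]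
    constructor
    · exact Eventually.of_forall fun θ => integrable_rot _ (hnorm θ) hi
    · simp only [Function.uncurry]
      have : ∀ θ : ℝ, ∫ z, ‖h (circleMap 0 1 θ • z)‖ ∂(mu n) = ∫ z, ‖h z‖ ∂(mu n) := fun θ =>
        integral_rot _ (hnorm θ) (fun z => ‖h z‖)
      simp only [this]
      exact integrable_const _
  have hswap := integral_integral_swap hint
  have hpi : (0:ℝ) ≤ 2 * Real.pi := by positivity
  simp only [← intervalIntegral.integral_of_le hpi, h1] at hswap
  have hR : ∀ θ : ℝ, ∫ z, h (circleMap 0 1 θ • z) ∂(mu n) = ∫ z, h z ∂(mu n) := fun θ =>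
    integral_rot _ (hnorm θ) h
  simp only [hR] at hswap
  rw [integral_const, intervalIntegral.integral_const, sub_zero, Complex.real_smul,
    Complex.real_smul] at hswap
  have hpi0 : ((2 * Real.pi : ℝ) : ℂ) ≠ 0 := by
    rw [Ne, Complex.ofReal_eq_zero]; positivity
  apply mul_left_cancel₀ hpi0
  rw [← hswap]
  unfold mass
  push_cast; ring


/-- The kernel `e^{∑ conj(z_k) w_k}`. -/
noncomputable def ker (w z : Fin n → ℂ) : ℂ := cexp (∑ k, (starRingEnd ℂ) (z k) * w k)

lemma ker_cont (w : Fin n → ℂ) : Continuous (ker w) := by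
  unfold ker
  refine Complex.continuous_exp.comp (continuous_finsetSum _ fun k _ => ?_)
  exact (Complex.continuous_conj.comp (continuous_apply k)).mul continuous_const

lemma norm_expo_le (w z : Fin n → ℂ) : ‖∑ k, (starRingEnd ℂ) (z k) * w k‖ ≤ ‖w‖ * ∑ k, ‖z k‖ := by
  refine (norm_sum_le _ _).trans ?_
  rw [Finset.mul_sum]
  refine Finset.sum_le_sum fun k _ => ?_
  rw [norm_mul, mul_comm, RCLike.norm_conj]
  exact mul_le_mul_of_nonneg_right (norm_le_pi_norm w k) (norm_nonneg _)

lemma norm_ker_le (w z : Fin n → ℂ) : ‖ker w z‖ ≤ 1 * Real.exp (‖w‖ * ∑ k, ‖z k‖) := by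
  unfold ker
  rw [one_mul]
  exact (Complex.norm_exp_le_exp_norm _).trans (Real.exp_le_exp.mpr (norm_expo_le w z))

lemma memLp_ker (w : Fin n → ℂ) : MemLp (ker w) 2 (mu n) :=
  memLp_of_growth (ker_cont w).aestronglyMeasurable 1 ‖w‖ (norm_ker_le w)

lemma integrable_mul_ker {g : (Fin n → ℂ) → ℂ} (hg : MemLp g 2 (mu n)) (w : Fin n → ℂ) :
    Integrable (fun z => g z * ker w z) (mu n) := hg.integrable_mul (memLp_ker w)

/-- Reproducing formula. -/
lemma reproducing {g : (Fin n → ℂ) → ℂ} (hd : Differentiable ℂ g) (hg : MemLp g 2 (mu n))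
    (w : Fin n → ℂ) : ∫ z, g z * ker w z ∂(mu n) = mass n * g w := by
  set h : (Fin n → ℂ) → ℂ := fun z => g (z + w) * cexp (-∑ k, (starRingEnd ℂ) (w k) * z k) with hh
  have key : ∀ z : Fin n → ℂ, gw (z + w) • (g (z + w) * ker w (z + w)) = gw z • h z := by
    intro z
    simp only [hh, gw, ker, Complex.real_smul, Complex.ofReal_exp]
    rw [mul_left_comm, mul_left_comm (cexp _) (g (z + w))]
    congr 1
    rw [← Complex.exp_add, ← Complex.exp_add]
    congr 1
    push_cast
    rw [← Finset.sum_neg_distrib, ← Finset.sum_neg_distrib, ← Finset.sum_neg_distrib,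
      ← Finset.sum_add_distrib, ← Finset.sum_add_distrib]
    refine Finset.sum_congr rfl fun k _ => ?_
    rw [← Complex.ofReal_pow, ← Complex.ofReal_pow, ← Complex.normSq_eq_norm_sq,
      ← Complex.normSq_eq_norm_sq, Complex.normSq_eq_conj_mul_self, Complex.normSq_eq_conj_mul_self]
    simp only [Pi.add_apply, map_add]
    ring
  have hint := integrable_mul_ker hg w
  have hi : Integrable h (mu n) := by
    rw [integrable_mu_iff] at hint ⊢
    have := hint.comp_add_right w
    refine this.congr (Eventually.of_forall fun z => ?_)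
    exact key z
  have hdh : Differentiable ℂ h := by
    apply Differentiable.mul
    · exact hd.comp (differentiable_id.add_const w)
    · fun_prop
  rw [integral_mu, ← integral_add_right_eq_self _ w]
  simp only [key]
  rw [← integral_mu, mean_value hdh hi]
  simp [hh]


/-- derivative of the kernel in `w`. -/
noncomputable def dker (w z : Fin n → ℂ) : (Fin n → ℂ) →L[ℂ] ℂ :=
  ker w z • ∑ k, (starRingEnd ℂ) (z k) • (ContinuousLinearMap.proj k : (Fin n → ℂ) →L[ℂ] ℂ)

lemma hasFDerivAt_ker (w z : Fin n → ℂ) : HasFDerivAt (fun w => ker w z) (dker w z) w := by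
  unfold dker ker
  apply HasFDerivAt.cexp
  apply HasFDerivAt.fun_sum
  intro k _
  exact (ContinuousLinearMap.proj (R := ℂ) (φ := fun _ : Fin n => ℂ) k).hasFDerivAt.const_mul _

lemma norm_dker_le (w z : Fin n → ℂ) : ‖dker w z‖ ≤ Real.exp ((‖w‖ + 1) * ∑ k, ‖z k‖) := by
  unfold dker
  rw [norm_smul, add_mul, one_mul, Real.exp_add]
  apply mul_le_mul _ _ (norm_nonneg _) (Real.exp_pos _).le
  · simpa using norm_ker_le w z
  · refine (norm_sum_le _ _).trans ?_
    have h1 : ∑ k, ‖(starRingEnd ℂ) (z k) • (ContinuousLinearMap.proj k : (Fin n → ℂ) →L[ℂ] ℂ)‖ ≤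
        ∑ k, ‖z k‖ := by
      refine Finset.sum_le_sum fun k _ => ?_
      rw [norm_smul, RCLike.norm_conj]
      refine mul_le_of_le_one_right (norm_nonneg _) ?_
      apply ContinuousLinearMap.opNorm_le_bound _ zero_le_one
      intro v
      rw [one_mul]
      exact norm_le_pi_norm v k
    refine h1.trans ?_
    have := Real.add_one_le_exp (∑ k, ‖z k‖)
    linarith

lemma dker_cont (w : Fin n → ℂ) : Continuous (fun z => dker w z) := by
  unfold dker
  refine (ker_cont w).smul (continuous_finsetSum _ fun k _ => ?_)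
  exact (Complex.continuous_conj.comp (continuous_apply k)).smul continuous_const

/-- The projection onto the Fock space, as a function. -/
noncomputable def Pfun (f : (Fin n → ℂ) → ℂ) (w : Fin n → ℂ) : ℂ :=
  (mass n : ℂ)⁻¹ * ∫ z, f z * ker w z ∂(mu n)

lemma Pfun_differentiable {f : (Fin n → ℂ) → ℂ} (hf : MemLp f 2 (mu n)) :
    Differentiable ℂ (Pfun f) := by
  intro w₀
  have hbound : MemLp (fun z : Fin n → ℂ => (Real.exp ((‖w₀‖ + 2) * ∑ k, ‖z k‖) : ℂ)) 2 (mu n) := by
    apply memLp_of_growth _ 1 (‖w₀‖ + 2)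
    · intro z
      rw [one_mul, Complex.norm_real, Real.norm_of_nonneg (Real.exp_pos _).le]
    · apply Continuous.aestronglyMeasurable
      fun_prop
  have hD : HasFDerivAt (fun w => ∫ z, f z * ker w z ∂(mu n))
      (∫ z, f z • dker w₀ z ∂(mu n)) w₀ := by
    apply hasFDerivAt_integral_of_dominated_of_fderiv_le (s := ball w₀ 1)
      (F' := fun w z => f z • dker w z)
      (bound := fun z => ‖f z‖ * Real.exp ((‖w₀‖ + 2) * ∑ k, ‖z k‖))
    · exact ball_mem_nhds _ one_pos
    · exact Eventually.of_forall fun w => (integrable_mul_ker hf w).aestronglyMeasurable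
    · exact integrable_mul_ker hf w₀
    · exact hf.aestronglyMeasurable.smul (dker_cont w₀).aestronglyMeasurable
    · refine Eventually.of_forall fun z w hw => ?_
      rw [norm_smul]
      refine mul_le_mul_of_nonneg_left ((norm_dker_le w z).trans ?_) (norm_nonneg _)
      apply Real.exp_le_exp.mpr
      apply mul_le_mul_of_nonneg_right _ (Finset.sum_nonneg fun k _ => norm_nonneg _)
      have h1 : ‖w‖ ≤ ‖w₀‖ + 1 := by
        have := norm_le_norm_add_norm_sub' w w₀
        rw [mem_ball, dist_eq_norm] at hw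
        linarith
      linarith
    · have := (hf.integrable_mul hbound).norm
      refine this.congr (Eventually.of_forall fun z => ?_)
      simp only [Pi.mul_apply, norm_mul, Complex.norm_real, Real.norm_of_nonneg (Real.exp_pos _).le]
    · refine Eventually.of_forall fun z w _ => ?_
      exact (hasFDerivAt_ker w z).const_mul (f z)
  exact (hD.differentiableAt).const_mul _

/-- The Bargmann-Segal space `H²(μ)`: (classes of) entire functions in `L²(μ)`. -/
def Fock (n : ℕ) : Submodule ℂ (Lp ℂ 2 (mu n)) where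
  carrier := {f | ∃ g : (Fin n → ℂ) → ℂ, Differentiable ℂ g ∧ f =ᵐ[mu n] g}
  add_mem' := by
    rintro a b ⟨g, hg, hag⟩ ⟨h, hh, hbh⟩
    exact ⟨fun z => g z + h z, hg.add hh, (Lp.coeFn_add a b).trans (hag.add hbh)⟩
  zero_mem' := ⟨fun _ => 0, differentiable_const 0, Lp.coeFn_zero _ _ _⟩
  smul_mem' := by
    rintro c a ⟨g, hg, hag⟩
    exact ⟨fun z => c * g z, hg.const_mul c, (Lp.coeFn_smul c a).trans (hag.const_smul c)⟩

lemma mem_Fock {f : Lp ℂ 2 (mu n)} :
    f ∈ Fock n ↔ ∃ g : (Fin n → ℂ) → ℂ, Differentiable ℂ g ∧ f =ᵐ[mu n] g := Iff.rfl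

lemma Pfun_congr {f g : (Fin n → ℂ) → ℂ} (h : f =ᵐ[mu n] g) : Pfun f = Pfun g := by
  ext w
  unfold Pfun
  congr 1
  apply integral_congr_ae
  filter_upwards [h] with z hz
  rw [hz]

lemma Pfun_eq {g : (Fin n → ℂ) → ℂ} (hd : Differentiable ℂ g) (hg : MemLp g 2 (mu n)) :
    Pfun g = g := by
  ext w
  unfold Pfun
  rw [reproducing hd hg w, ← mul_assoc, inv_mul_cancel₀, one_mul]
  exact_mod_cast mass_pos.ne'

lemma Pfun_eq_ae {f : Lp ℂ 2 (mu n)} (hf : f ∈ Fock n) : Pfun (f : (Fin n → ℂ) → ℂ) =ᵐ[mu n] f := by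
  obtain ⟨g, hg, hfg⟩ := hf
  rw [Pfun_congr hfg, Pfun_eq hg ((memLp_congr_ae hfg).mp (Lp.memLp f))]
  exact hfg.symm

/-- `Pfun` through inner product with the kernel -/
lemma Pfun_inner (f : Lp ℂ 2 (mu n)) (w : Fin n → ℂ) :
    Pfun (f : (Fin n → ℂ) → ℂ) w = (mass n : ℂ)⁻¹ *
      inner ℂ ((memLp_ker w).star.toLp) f := by
  unfold Pfun
  congr 1
  rw [L2.inner_def]
  apply integral_congr_ae
  filter_upwards [(memLp_ker w).star.coeFn_toLp] with z hz
  rw [hz]
  simp

lemma isClosed_Fock : IsClosed (Fock n : Set (Lp ℂ 2 (mu n))) := by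
  apply IsSeqClosed.isClosed
  intro x f hx hlim
  refine ⟨Pfun (f : (Fin n → ℂ) → ℂ), Pfun_differentiable (Lp.memLp f), ?_⟩
  have h1 : ∀ w, Tendsto (fun j => Pfun (x j : (Fin n → ℂ) → ℂ) w) atTop
      (𝓝 (Pfun (f : (Fin n → ℂ) → ℂ) w)) := by
    intro w
    simp only [Pfun_inner]
    exact (tendsto_const_nhds.inner hlim).const_mul _
  obtain ⟨ns, hns, hae⟩ := (tendstoInMeasure_of_tendsto_Lp hlim).exists_seq_tendsto_ae
  have hall : ∀ᵐ z ∂(mu n), ∀ j, Pfun (x j : (Fin n → ℂ) → ℂ) z = (x j : (Fin n → ℂ) → ℂ) z := by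
    rw [ae_all_iff]; exact fun j => Pfun_eq_ae (hx j)
  filter_upwards [hae, hall] with z hz1 hz2
  refine tendsto_nhds_unique hz1 ?_
  simp only [← hz2]
  exact (h1 z).comp hns.tendsto_atTop

instance : CompleteSpace (Fock n) := isClosed_Fock.completeSpace_coe


lemma pow_le_exp (x : ℝ) (hx : 0 ≤ x) (a : ℕ) : x ^ a ≤ Real.exp (a * x) := by
  rw [Real.exp_nat_mul]
  apply pow_le_pow_left₀ hx
  linarith [Real.add_one_le_exp x]

lemma norm_prod_pow_le (z : Fin n → ℂ) (α : Fin n → ℕ) :
    ∏ k, ‖z k‖ ^ α k ≤ 1 * Real.exp ((∑ k, (α k : ℝ)) * ∑ k, ‖z k‖) := by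
  rw [one_mul, Finset.mul_sum, Real.exp_sum]
  apply Finset.prod_le_prod
  · intro k _; positivity
  · intro k _
    refine (pow_le_exp _ (norm_nonneg _) _).trans (Real.exp_le_exp.mpr ?_)
    apply mul_le_mul_of_nonneg_right _ (norm_nonneg _)
    exact Finset.single_le_sum (f := fun k => (α k : ℝ)) (fun i _ => Nat.cast_nonneg _)
      (Finset.mem_univ k)

/-- monomials -/
noncomputable def mon (α : Fin n → ℕ) (z : Fin n → ℂ) : ℂ := ∏ k, z k ^ α k

noncomputable def cmon (α : Fin n → ℕ) (z : Fin n → ℂ) : ℂ := ∏ k, (starRingEnd ℂ) (z k) ^ α k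

lemma mon_cont (α : Fin n → ℕ) : Continuous (mon α) := by
  unfold mon; fun_prop

lemma cmon_cont (α : Fin n → ℕ) : Continuous (cmon α) := by
  unfold cmon
  exact continuous_finsetProd _ fun k _ =>
    ((Complex.continuous_conj.comp (continuous_apply k)).pow _)

lemma mon_diff (α : Fin n → ℕ) : Differentiable ℂ (mon α) := by
  unfold mon; fun_prop

lemma norm_mon (α : Fin n → ℕ) (z : Fin n → ℂ) : ‖mon α z‖ = ∏ k, ‖z k‖ ^ α k := by
  simp [mon, norm_prod, norm_pow]

lemma norm_cmon (α : Fin n → ℕ) (z : Fin n → ℂ) : ‖cmon α z‖ = ∏ k, ‖z k‖ ^ α k := by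
  simp [cmon, norm_prod, norm_pow]

lemma memLp_mon (α : Fin n → ℕ) : MemLp (mon α) 2 (mu n) :=
  memLp_of_growth (mon_cont α).aestronglyMeasurable 1 (∑ k, (α k : ℝ)) (fun z => by
    rw [norm_mon]; exact norm_prod_pow_le z α)

lemma memLp_cmon (α : Fin n → ℕ) : MemLp (cmon α) 2 (mu n) :=
  memLp_of_growth (cmon_cont α).aestronglyMeasurable 1 (∑ k, (α k : ℝ)) (fun z => by
    rw [norm_cmon]; exact norm_prod_pow_le z α)

/-- completeness of monomials -/
lemma eq_zero_of_moments {f : Lp ℂ 2 (mu n)} (hf : f ∈ Fock n)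
    (h : ∀ α : Fin n → ℕ, ∫ z, f z * cmon α z ∂(mu n) = 0) : f = 0 := by
  have hL := Lp.memLp f
  -- powers of the linear form
  have hpow : ∀ (w : Fin n → ℂ) (m : ℕ),
      Integrable (fun z => f z * (∑ k, (starRingEnd ℂ) (z k) * w k) ^ m) (mu n) ∧
      ∫ z, f z * (∑ k, (starRingEnd ℂ) (z k) * w k) ^ m ∂(mu n) = 0 := by
    intro w m
    set p : MvPolynomial (Fin n) ℂ := (∑ k, MvPolynomial.X k * MvPolynomial.C (w k)) ^ m with hp
    have hpz : ∀ z : Fin n → ℂ, (∑ k, (starRingEnd ℂ) (z k) * w k) ^ m =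
        ∑ d ∈ p.support, p.coeff d * cmon (fun k => d k) z := by
      intro z
      have : (∑ k, (starRingEnd ℂ) (z k) * w k) ^ m =
          MvPolynomial.eval (fun k => (starRingEnd ℂ) (z k)) p := by
        simp [hp]
      rw [this, MvPolynomial.eval_eq']
      rfl
    have hi : ∀ d ∈ p.support, Integrable
        (fun z => f z * (p.coeff d * cmon (fun k => d k) z)) (mu n) := by
      intro d _
      have : ∀ z, f z * (p.coeff d * cmon (fun k => d k) z) =
          p.coeff d * (f z * cmon (fun k => d k) z) := fun z => by ring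
      simp only [this]
      exact (hL.integrable_mul (memLp_cmon _)).const_mul _
    simp only [hpz, Finset.mul_sum]
    refine ⟨integrable_finsetSum _ hi, ?_⟩
    rw [integral_finsetSum]
    · apply Finset.sum_eq_zero
      intro d _
      have : ∀ z, f z * (p.coeff d * cmon (fun k => d k) z) =
          p.coeff d * (f z * cmon (fun k => d k) z) := fun z => by ring
      simp only [this]
      rw [integral_const_mul, h, mul_zero]
    · exact hi
  have hker : ∀ w, ∫ z, f z * ker w z ∂(mu n) = 0 := by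
    intro w
    have hlim : Tendsto (fun N : ℕ => ∫ z, f z * ∑ m ∈ Finset.range N,
        (∑ k, (starRingEnd ℂ) (z k) * w k) ^ m / (m.factorial : ℂ) ∂(mu n)) atTop
        (𝓝 (∫ z, f z * ker w z ∂(mu n))) := by
      apply tendsto_integral_of_dominated_convergence
        (fun z => ‖f z‖ * Real.exp (‖w‖ * ∑ k, ‖z k‖))
      · intro N
        apply (hL.aestronglyMeasurable).mul
        apply Continuous.aestronglyMeasurable
        apply continuous_finsetSum
        intro m _
        apply Continuous.div_const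
        apply Continuous.pow
        exact continuous_finsetSum _ fun k _ =>
          (Complex.continuous_conj.comp (continuous_apply k)).mul continuous_const
      · have hb : MemLp (fun z : Fin n → ℂ => (Real.exp (‖w‖ * ∑ k, ‖z k‖) : ℂ)) 2 (mu n) := by
          apply memLp_of_growth _ 1 ‖w‖
          · intro z
            rw [one_mul, Complex.norm_real, Real.norm_of_nonneg (Real.exp_pos _).le]
          · apply Continuous.aestronglyMeasurable
            fun_prop
        refine (hL.integrable_mul hb).norm.congr (Eventually.of_forall fun z => ?_)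
        simp only [Pi.mul_apply, norm_mul, Complex.norm_real,
          Real.norm_of_nonneg (Real.exp_pos _).le]
      · intro N
        refine Eventually.of_forall fun z => ?_
        rw [norm_mul]
        apply mul_le_mul_of_nonneg_left _ (norm_nonneg _)
        refine (norm_sum_le _ _).trans ?_
        have h1 : ∀ m ∈ Finset.range N,
            ‖(∑ k, (starRingEnd ℂ) (z k) * w k) ^ m / (m.factorial : ℂ)‖ ≤
              (‖w‖ * ∑ k, ‖z k‖) ^ m / (m.factorial : ℝ) := by
          intro m _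
          rw [norm_div, norm_pow, Complex.norm_natCast]
          apply div_le_div_of_nonneg_right _ (Nat.cast_nonneg _)
          exact pow_le_pow_left₀ (norm_nonneg _) (norm_expo_le w z) m
        refine (Finset.sum_le_sum h1).trans ?_
        exact Real.sum_le_exp_of_nonneg
          (mul_nonneg (norm_nonneg _) (Finset.sum_nonneg fun k _ => norm_nonneg _)) N
      · refine Eventually.of_forall fun z => ?_
        apply Tendsto.const_mul
        unfold ker
        rw [Complex.exp_eq_exp_ℂ]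
        exact (NormedSpace.exp_series_hasSum_exp' (𝕂 := ℂ)
          (∑ k, (starRingEnd ℂ) (z k) * w k)).tendsto_sum_nat.congr (fun N => by
            apply Finset.sum_congr rfl
            intro m _
            rw [smul_eq_mul, div_eq_inv_mul])
    have hzero : ∀ N : ℕ, ∫ z, f z * ∑ m ∈ Finset.range N,
        (∑ k, (starRingEnd ℂ) (z k) * w k) ^ m / (m.factorial : ℂ) ∂(mu n) = 0 := by
      intro N
      simp only [Finset.mul_sum]
      rw [integral_finsetSum]
      · apply Finset.sum_eq_zero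
        intro m _
        simp only [← mul_div_assoc]
        rw [integral_div, (hpow w m).2, zero_div]
      · intro m _
        simp only [← mul_div_assoc]
        exact (hpow w m).1.div_const _
    simp only [hzero] at hlim
    exact (tendsto_nhds_unique hlim tendsto_const_nhds)
  have hP := Pfun_eq_ae hf
  rw [Lp.ext_iff]
  refine hP.symm.trans ?_
  have : Pfun (f : (Fin n → ℂ) → ℂ) = fun _ => 0 := by
    ext w; unfold Pfun; rw [hker, mul_zero]
  rw [this]
  exact (Lp.coeFn_zero _ _ _).symm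

/-- one-variable moments -/
noncomputable def mom (a b : ℕ) : ℂ := ∫ z : ℂ, z ^ a * (starRingEnd ℂ) z ^ b * Real.exp (-‖z‖ ^ 2)

lemma mom_ne {a b : ℕ} (h : a ≠ b) : mom a b = 0 := by
  -- rotation by `c` with `c^a * conj c^b = -1`
  obtain ⟨c, hc, hc2⟩ : ∃ c : ℂ, ‖c‖ = 1 ∧ c ^ a * (starRingEnd ℂ) c ^ b = -1 := by
    have hab : ((a : ℂ) - b) ≠ 0 := by
      rw [sub_ne_zero]; exact_mod_cast h
    refine ⟨cexp ((Real.pi / ((a : ℝ) - b) : ℝ) * I), Complex.norm_exp_ofReal_mul_I _, ?_⟩
    rw [← Complex.exp_conj, map_mul, Complex.conj_ofReal, Complex.conj_I, ← Complex.exp_nat_mul,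
      ← Complex.exp_nat_mul, ← Complex.exp_add]
    have : (a : ℂ) * (((Real.pi / ((a : ℝ) - b) : ℝ) : ℂ) * I) +
        (b : ℂ) * (((Real.pi / ((a : ℝ) - b) : ℝ) : ℂ) * -I) = Real.pi * I := by
      push_cast
      field_simp
      ring
    rw [this, Complex.exp_pi_mul_I]
  have hrot : MeasurePreserving (fun z : ℂ => c * z) volume volume := by
    have := LinearIsometryEquiv.measurePreserving (rotation ⟨c, mem_sphere_zero_iff_norm.2 hc⟩)
    exact this
  have hemb : MeasurableEmbedding (fun z : ℂ => c * z) := by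
    have hc0 : c ≠ 0 := by intro h; simp [h] at hc
    exact (Homeomorph.mulLeft₀ c hc0).measurableEmbedding
  have h1 := hrot.integral_comp hemb
    (fun z : ℂ => z ^ a * (starRingEnd ℂ) z ^ b * (Real.exp (-‖z‖ ^ 2) : ℂ))
  have h2 : ∀ z : ℂ, (c * z) ^ a * (starRingEnd ℂ) (c * z) ^ b * (Real.exp (-‖c * z‖ ^ 2) : ℂ) =
      -(z ^ a * (starRingEnd ℂ) z ^ b * (Real.exp (-‖z‖ ^ 2) : ℂ)) := by
    intro z
    rw [norm_mul, hc, one_mul, mul_pow, map_mul, mul_pow]
    linear_combination (z ^ a * (starRingEnd ℂ) z ^ b * (Real.exp (-‖z‖ ^ 2) : ℂ)) * hc2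
  simp only [h2] at h1
  rw [integral_neg] at h1
  change -mom a b = mom a b at h1
  have := neg_eq_self.mp h1
  exact this

lemma mom_eq (a : ℕ) : mom a a = Real.pi * a.factorial := by
  have h1 := Complex.integral_rpow_mul_exp_neg_rpow (p := 2) (q := 2 * a) (by norm_num)
    (by have : (0:ℝ) ≤ a := Nat.cast_nonneg a; linarith)
  have h2 : mom a a = ((∫ x : ℂ, ‖x‖ ^ (2 * a : ℝ) * Real.exp (-‖x‖ ^ (2:ℝ)) : ℝ) : ℂ) := by
    rw [← integral_complex_ofReal]
    unfold mom
    congr 1
    ext z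
    rw [← mul_pow, Complex.mul_conj, Complex.normSq_eq_norm_sq]
    push_cast
    congr 2
    · rw [← pow_mul]
      norm_cast
    · norm_cast
  rw [h2, h1]
  have : ((2 * (a:ℝ) + 2) / 2) = a + 1 := by ring
  rw [this, Real.Gamma_nat_eq_factorial]
  push_cast
  ring

lemma moment (α β : Fin n → ℕ) :
    ∫ z, mon α z * cmon β z ∂(mu n) = ∏ k, mom (α k) (β k) := by
  rw [integral_mu]
  have : ∀ z : Fin n → ℂ, gw z • (mon α z * cmon β z) =
      ∏ k, (z k ^ α k * (starRingEnd ℂ) (z k) ^ β k * (Real.exp (-‖z k‖ ^ 2) : ℂ)) := by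
    intro z
    rw [Finset.prod_mul_distrib, Finset.prod_mul_distrib, Complex.real_smul, gw_prod, mon, cmon]
    push_cast
    ring
  simp only [this]
  exact integral_fintype_prod_volume_eq_prod (fun k (z : ℂ) =>
    z ^ α k * (starRingEnd ℂ) z ^ β k * (Real.exp (-‖z‖ ^ 2) : ℂ))

end Pool.Agent.Lib.MP_d26497_an
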