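import Pool.Agent.Lib.MP_d26497_an.Fock

open MeasureTheory Complex Metric Set Filter Topology

namespace Pool.Agent.Lib.MP_d26497_an

variable {n : ℕ}

set_option linter.unusedSectionVars false

/-- The orthogonal projection `P` of `L²(μ)` onto `H²(μ)`, applied to a function `g ∈ L²(μ)`. -/
noncomputable def proj (g : (Fin n → ℂ) → ℂ) (hg : MemLp g 2 (mu n)) : Fock n :=
  (Fock n).orthogonalProjectionOnto (hg.toLp g)

lemma proj_congr {g h : (Fin n → ℂ) → ℂ} (hg : MemLp g 2 (mu n)) (hh : MemLp h 2 (mu n))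
    (hgh : g =ᵐ[mu n] h) : proj g hg = proj h hh := by
  unfold proj; rw [MemLp.toLp_congr hg hh hgh]

lemma proj_add {g h : (Fin n → ℂ) → ℂ} (hg : MemLp g 2 (mu n)) (hh : MemLp h 2 (mu n)) :
    proj (g + h) (hg.add hh) = proj g hg + proj h hh := by
  unfold proj; rw [MemLp.toLp_add, map_add]

lemma proj_smul (c : ℂ) {g : (Fin n → ℂ) → ℂ} (hg : MemLp g 2 (mu n)) :
    proj (c • g) (hg.const_smul c) = c • proj g hg := by
  unfold proj; rw [MemLp.toLp_const_smul, map_smul]

/-- The function `φ f` for `f ∈ H²(μ)`. -/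
noncomputable def mulF (φ : (Fin n → ℂ) → ℂ) (f : Fock n) (z : Fin n → ℂ) : ℂ :=
  φ z * (f : Lp ℂ 2 (mu n)) z

lemma mulF_add (φ : (Fin n → ℂ) → ℂ) (a b : Fock n) :
    mulF φ a + mulF φ b =ᵐ[mu n] mulF φ (a + b) := by
  filter_upwards [Lp.coeFn_add (a : Lp ℂ 2 (mu n)) b] with z hz
  simp only [Pi.add_apply, mulF, Submodule.coe_add, hz]
  ring

lemma mulF_smul (φ : (Fin n → ℂ) → ℂ) (c : ℂ) (a : Fock n) :
    c • mulF φ a =ᵐ[mu n] mulF φ (c • a) := by
  filter_upwards [Lp.coeFn_smul c (a : Lp ℂ 2 (mu n))] with z hz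
  simp only [Pi.smul_apply, mulF, Submodule.coe_smul, hz, smul_eq_mul]
  ring

lemma mulF_zero (φ : (Fin n → ℂ) → ℂ) : (0 : (Fin n → ℂ) → ℂ) =ᵐ[mu n] mulF φ 0 := by
  filter_upwards [Lp.coeFn_zero ℂ 2 (mu n)] with z hz
  simp only [Pi.zero_apply] at hz
  simp only [Pi.zero_apply, mulF]
  rw [ZeroMemClass.coe_zero, hz, mul_zero]

/-- The domain `D(T_φ) = {f ∈ H²(μ) : φ f ∈ L²(μ)}`. -/
def tdom (φ : (Fin n → ℂ) → ℂ) : Submodule ℂ (Fock n) where
  carrier := {f | MemLp (mulF φ f) 2 (mu n)}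
  add_mem' := fun {a b} ha hb => (MemLp.add ha hb).ae_eq (mulF_add φ a b)
  zero_mem' := MemLp.ae_eq (mulF_zero φ) MemLp.zero
  smul_mem' := fun c a ha => (MemLp.const_smul ha c).ae_eq (mulF_smul φ c a)

lemma mem_tdom {φ : (Fin n → ℂ) → ℂ} {f : Fock n} :
    f ∈ tdom φ ↔ MemLp (mulF φ f) 2 (mu n) := Iff.rfl

/-- The Toeplitz operator `T_φ f = P(φ f)` on `H²(μ)` with domain
`D(T_φ) = {f ∈ H²(μ) : φ f ∈ L²(μ)}`. -/
noncomputable def toeplitz (φ : (Fin n → ℂ) → ℂ) : Fock n →ₗ.[ℂ] Fock n where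
  domain := tdom φ
  toFun :=
    { toFun := fun f => proj (mulF φ f) (mem_tdom.1 f.2)
      map_add' := fun a b => by
        rw [← proj_add (mem_tdom.1 a.2) (mem_tdom.1 b.2)]
        exact proj_congr _ _ (mulF_add φ a b).symm
      map_smul' := fun c a => by
        rw [RingHom.id_apply, ← proj_smul c (mem_tdom.1 a.2)]
        exact proj_congr _ _ (mulF_smul φ c a).symm }

/-- The function `z ↦ p(z, conj z)` on `ℂⁿ`; the variables `Sum.inl k` stand for `z_k` and the
variables `Sum.inr k` stand for the conjugate of `z_k`. -/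
noncomputable def symb (p : MvPolynomial (Fin n ⊕ Fin n) ℂ) (z : Fin n → ℂ) : ℂ :=
  MvPolynomial.eval (Sum.elim z (fun k => (starRingEnd ℂ) (z k))) p

section Resolvent

variable {E : Type*} [NormedAddCommGroup E] [NormedSpace ℂ E]

/-- `z` is in the resolvent set of the operator `A`, and `R = (z I - A)⁻¹` (a bounded everywhere
defined operator). -/
def IsResolvent (A : E →ₗ.[ℂ] E) (z : ℂ) (R : E →L[ℂ] E) : Prop :=
  (∀ y : E, ∃ h : R y ∈ A.domain, z • R y - A ⟨R y, h⟩ = y) ∧
    ∀ x : A.domain, R (z • (x : E) - A x) = x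

/-- `A` has compact resolvent: the resolvent set is nonempty and the resolvent is compact. -/
def HasCompactResolvent (A : E →ₗ.[ℂ] E) : Prop :=
  ∃ (z : ℂ) (R : E →L[ℂ] E), IsResolvent A z R ∧ IsCompactOperator R

end Resolvent

/-! ## Basic facts -/

lemma symb_eq (p : MvPolynomial (Fin n ⊕ Fin n) ℂ) (z : Fin n → ℂ) :
    symb p z = ∑ d ∈ p.support, p.coeff d *
      (mon (fun k => d (Sum.inl k)) z * cmon (fun k => d (Sum.inr k)) z) := by
  unfold symb
  rw [MvPolynomial.eval_eq']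
  refine Finset.sum_congr rfl fun d _ => ?_
  rw [Fintype.prod_sum_type]
  rfl

lemma mon_mul (α β : Fin n → ℕ) (z : Fin n → ℂ) : mon α z * mon β z = mon (α + β) z := by
  unfold mon; rw [← Finset.prod_mul_distrib]; simp [pow_add]

lemma cmon_mul (α β : Fin n → ℕ) (z : Fin n → ℂ) : cmon α z * cmon β z = cmon (α + β) z := by
  unfold cmon; rw [← Finset.prod_mul_distrib]; simp [pow_add]

lemma conj_mon (α : Fin n → ℕ) (z : Fin n → ℂ) : (starRingEnd ℂ) (mon α z) = cmon α z := by
  simp [mon, cmon]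

lemma conj_cmon (α : Fin n → ℕ) (z : Fin n → ℂ) : (starRingEnd ℂ) (cmon α z) = mon α z := by
  simp [mon, cmon]

lemma memLp_mon_cmon (α β : Fin n → ℕ) : MemLp (fun z => mon α z * cmon β z) 2 (mu n) := by
  apply memLp_of_growth (f := fun z => mon α z * cmon β z)
    ((mon_cont α).mul (cmon_cont β)).aestronglyMeasurable 1
    ((∑ k, (α k : ℝ)) + ∑ k, (β k : ℝ))
  intro z
  rw [norm_mul, norm_mon, norm_cmon, add_mul, Real.exp_add, one_mul]
  apply mul_le_mul
  · simpa using norm_prod_pow_le z α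
  · simpa using norm_prod_pow_le z β
  · exact Finset.prod_nonneg fun k _ => by positivity
  · exact (Real.exp_pos _).le

/-- the monomial `z^α` as an element of the Fock space -/
noncomputable def monL (α : Fin n → ℕ) : Fock n :=
  ⟨(memLp_mon α).toLp, mon α, mon_diff α, (memLp_mon α).coeFn_toLp⟩

lemma monL_ae (α : Fin n → ℕ) : ((monL α : Fock n) : Lp ℂ 2 (mu n)) =ᵐ[mu n] mon α :=
  (memLp_mon α).coeFn_toLp

lemma inner_monL (β : Fin n → ℕ) (f : Fock n) :
    inner ℂ (monL β) f = ∫ z, (f : Lp ℂ 2 (mu n)) z * cmon β z ∂(mu n) := by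
  rw [Submodule.coe_inner, L2.inner_def]
  apply integral_congr_ae
  filter_upwards [monL_ae β] with z hz
  rw [hz, ← conj_mon]
  simp [mul_comm]

lemma inner_monL_monL (β α : Fin n → ℕ) :
    inner ℂ (monL β) (monL α) = ∏ k, mom (α k) (β k) := by
  rw [inner_monL, ← moment]
  apply integral_congr_ae
  filter_upwards [monL_ae α] with z hz
  rw [hz]

lemma ext_monL {f g : Fock n} (h : ∀ β, inner ℂ (monL β) f = inner ℂ (monL β) g) : f = g := by
  rw [← sub_eq_zero, ← Submodule.coe_eq_zero]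
  apply eq_zero_of_moments (f - g : Fock n).2
  intro β
  rw [← inner_monL, inner_sub_right, h, sub_self]

lemma inner_proj (f : Fock n) {g : (Fin n → ℂ) → ℂ} (hg : MemLp g 2 (mu n)) :
    inner ℂ f (proj g hg) = ∫ z, g z * (starRingEnd ℂ) ((f : Lp ℂ 2 (mu n)) z) ∂(mu n) := by
  unfold proj
  rw [Submodule.inner_orthogonalProjectionOnto_eq_of_mem_left, L2.inner_def]
  apply integral_congr_ae
  filter_upwards [hg.coeFn_toLp] with z hz
  rw [hz]
  simp

lemma inner_proj_monL (β : Fin n → ℕ) {g : (Fin n → ℂ) → ℂ} (hg : MemLp g 2 (mu n)) :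
    inner ℂ (monL β) (proj g hg) = ∫ z, g z * cmon β z ∂(mu n) := by
  rw [inner_proj]
  apply integral_congr_ae
  filter_upwards [monL_ae β] with z hz
  rw [hz, conj_mon]

/-- Matrix entries of `T_φ`. -/
lemma inner_toeplitz {φ : (Fin n → ℂ) → ℂ} {β : Fin n → ℕ}
    (hβ : MemLp (fun z => (starRingEnd ℂ) (φ z) * mon β z) 2 (mu n)) (f : (toeplitz φ).domain) :
    inner ℂ (monL β) (toeplitz φ f) =
      inner ℂ (proj (fun z => (starRingEnd ℂ) (φ z) * mon β z) hβ) (f : Fock n) := by
  have h1 : toeplitz φ f = proj (mulF φ f) (mem_tdom.1 f.2) := rfl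
  rw [h1, inner_proj_monL, ← inner_conj_symm (proj _ _), inner_proj, ← integral_conj]
  apply integral_congr_ae
  refine Eventually.of_forall fun z => ?_
  simp only [mulF, map_mul, Complex.conj_conj, conj_mon]
  ring

/-- On the graph of the closure the same relations hold. -/
lemma inner_closure {φ : (Fin n → ℂ) → ℂ} {β : Fin n → ℕ}
    (hβ : MemLp (fun z => (starRingEnd ℂ) (φ z) * mon β z) 2 (mu n)) {x y : Fock n}
    (h : (x, y) ∈ (toeplitz φ).graph.topologicalClosure) :
    inner ℂ (monL β) y =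
      inner ℂ (proj (fun z => (starRingEnd ℂ) (φ z) * mon β z) hβ) x := by
  have c1 : Continuous (fun p : Fock n × Fock n => inner ℂ (monL β) p.2) :=
    (innerSL ℂ (monL β)).continuous.comp continuous_snd
  have c2 : Continuous (fun p : Fock n × Fock n =>
      inner ℂ (proj (fun z => (starRingEnd ℂ) (φ z) * mon β z) hβ) p.1) :=
    (innerSL ℂ (proj (fun z => (starRingEnd ℂ) (φ z) * mon β z) hβ)).continuous.comp
      continuous_fst
  have hcl : IsClosed {p : Fock n × Fock n | inner ℂ (monL β) p.2 =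
      inner ℂ (proj (fun z => (starRingEnd ℂ) (φ z) * mon β z) hβ) p.1} := isClosed_eq c1 c2
  have hsub : ((toeplitz φ).graph : Set (Fock n × Fock n)) ⊆ {p | inner ℂ (monL β) p.2 =
      inner ℂ (proj (fun z => (starRingEnd ℂ) (φ z) * mon β z) hβ) p.1} := by
    rintro ⟨a, b⟩ hab
    rw [SetLike.mem_coe, LinearPMap.mem_graph_iff] at hab
    obtain ⟨f, hf1, hf2⟩ := hab
    simp only at hf1 hf2
    simp only [mem_ofPred_eq, ← hf1, ← hf2]
    exact inner_toeplitz hβ f
  exact closure_minimal hsub hcl h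

lemma isClosable {φ : (Fin n → ℂ) → ℂ}
    (hφ : ∀ β, MemLp (fun z => (starRingEnd ℂ) (φ z) * mon β z) 2 (mu n)) :
    (toeplitz φ).IsClosable := by
  refine ⟨(toeplitz φ).graph.topologicalClosure.toLinearPMap, ?_⟩
  rw [Submodule.toLinearPMap_graph_eq]
  rintro ⟨x, y⟩ hxy hx
  simp only at hx ⊢
  subst hx
  apply ext_monL
  intro β
  rw [inner_closure (hφ β) hxy, inner_zero_right, inner_zero_right]


/-- A closed subspace containing all monomials is everything. -/
lemma mem_of_monL {V : Submodule ℂ (Fock n)} (hV : IsClosed (V : Set (Fock n)))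
    (h : ∀ α, monL α ∈ V) (x : Fock n) : x ∈ V := by
  have hc : CompleteSpace V := hV.completeSpace_coe
  have hbot : Vᗮ = ⊥ := by
    rw [Submodule.eq_bot_iff]
    intro y hy
    apply ext_monL
    intro β
    rw [inner_zero_right]
    exact (Submodule.mem_orthogonal V y).mp hy _ (h β)
  have : V = ⊤ := by
    rw [← Submodule.orthogonal_orthogonal V, hbot, Submodule.bot_orthogonal_eq_top]
  rw [this]; exact Submodule.mem_top

lemma monL_inner_self_pos (α : Fin n → ℕ) : 0 < ‖(monL α : Fock n)‖ ^ 2 := by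
  have h := inner_monL_monL α α
  have h1 := @inner_self_eq_norm_sq_to_K ℂ (Fock n) _ _ _ (monL α)
  rw [h1] at h
  simp only [mom_eq] at h
  have h2 : ‖(monL α : Fock n)‖ ^ 2 = ∏ k, Real.pi * (α k).factorial := by
    apply Complex.ofReal_injective
    push_cast
    exact h
  rw [h2]
  apply Finset.prod_pos
  intro k _
  positivity

section Compact

variable {E : Type*} [NormedAddCommGroup E] [InnerProductSpace ℂ E] [CompleteSpace E]

lemma compact_rankOne (e r : E) : IsCompactOperator ((innerSL ℂ e).smulRight r : E →L[ℂ] E) := by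
  have h1 : IsCompactOperator (ContinuousLinearMap.id ℂ ℂ) := by
    rw [← ContinuousLinearMap.one_def]
    exact isCompactOperator_id
  have h2 := (h1.comp_clm (innerSL ℂ e)).clm_comp (ContinuousLinearMap.toSpanSingleton ℂ r)
  have h3 : (((innerSL ℂ e).smulRight r : E →L[ℂ] E) : E → E) =
      (ContinuousLinearMap.toSpanSingleton ℂ r) ∘ ((ContinuousLinearMap.id ℂ ℂ) ∘ (innerSL ℂ e)) := by
    funext x
    simp
  rw [h3]
  exact h2

/-- norm-summable sums of rank one operators are compact -/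
lemma compact_tsum {ι : Type*} (e r : ι → E)
    (hs : Summable (fun i => ((innerSL ℂ (e i)).smulRight (r i) : E →L[ℂ] E))) :
    IsCompactOperator (⇑(∑' i, ((innerSL ℂ (e i)).smulRight (r i) : E →L[ℂ] E))) := by
  refine isCompactOperator_of_tendsto hs.hasSum (Eventually.of_forall fun F => ?_)
  induction F using Finset.cons_induction with
  | empty => simpa using isCompactOperator_zero
  | cons a s ha ih =>
    rw [Finset.sum_cons]
    exact (compact_rankOne (e a) (r a)).add ih

end Compact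

end Pool.Agent.Lib.MP_d26497_an
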